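import Mathlib

/-!
# The deterministic part of the algorithm

Labels in the unit interval are cut into levels.  An independent set `S` is produced by a greedy
procedure over the levels, then a bootstrap procedure gives every vertex a layer, and vertices
outside `S` are coloured from high layers to low layers.
-/

set_option autoImplicit false

namespace Pool.Agent.Lib.MP_e8140e_co

variable {V : Type*} (G : SimpleGraph V) (K : ℕ)

/-- The level of a label. -/
noncomputable def lev (x : unitInterval) : ℕ := ⌊(K : ℝ) * (x : ℝ)⌋₊

/-- Members of the independent set found in rounds smaller than `j`. -/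
def inS (ω : V → unitInterval) : ℕ → V → Prop
  | 0, _ => False
  | j + 1, v => inS ω j v ∨
      (lev K (ω v) = j ∧ ∀ u, G.Adj v u → lev K (ω u) ≠ j ∧ ¬ inS ω j u)

/-- Bootstrap process started from the independent set. -/
def done (ω : V → unitInterval) : ℕ → V → Prop
  | 0, v => inS G K ω (K - 1) v
  | l + 1, v => done ω l v ∨ 3 ≤ {u | G.Adj v u ∧ done ω l u}.ncard

/-- `u` is coloured after `v`. -/
def later (ω : V → unitInterval) (t : ℕ) (u v : V) : Prop :=
  (∃ l < t, done G K ω l u ∧ ¬ done G K ω l v) ∨
    ((∀ l ≤ t, (done G K ω l u ↔ done G K ω l v)) ∧ ω v < ω u)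

open Classical in
/-- The colour of `v` after `t` rounds, or `none`. -/
noncomputable def col (ω : V → unitInterval) : ℕ → V → Option (Fin 5)
  | 0, v => if done G K ω 0 v then some 0 else none
  | t + 1, v =>
      if col ω t v ≠ none then col ω t v
      else if done G K ω t v ∧
          (∀ u, G.Adj v u → ¬ done G K ω 0 u → later G K ω t u v ∨ col ω t u ≠ none) then
        (List.finRange 5).find? (fun c => decide (∀ u, G.Adj v u → col ω t u ≠ some c))
      else none

variable {G K} {ω : V → unitInterval}

lemma inS_mono_succ {j : ℕ} {v : V} (h : inS G K ω j v) : inS G K ω (j + 1) v := Or.inl h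

lemma inS_mono {i j : ℕ} (hij : i ≤ j) {v : V} (h : inS G K ω i v) : inS G K ω j v := by
  induction j, hij using Nat.le_induction with
  | base => exact h
  | succ j _ ih => exact Or.inl ih

/-- A member has entered in the round given by its level. -/
lemma inS_lev {j : ℕ} {v : V} (h : inS G K ω j v) :
    lev K (ω v) < j ∧ ∀ u, G.Adj v u → lev K (ω u) ≠ lev K (ω v) ∧
      ¬ inS G K ω (lev K (ω v)) u := by
  induction j with
  | zero => exact h.elim
  | succ j ih =>
    rcases h with h | ⟨h1, h2⟩
    · exact ⟨(ih h).1.trans (Nat.lt_succ_self _), (ih h).2⟩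
    · rw [h1]; exact ⟨Nat.lt_succ_self _, h2⟩

lemma inS_of_lev {j : ℕ} {v : V} (hj : lev K (ω v) < j)
    (h : ∀ u, G.Adj v u → lev K (ω u) ≠ lev K (ω v) ∧ ¬ inS G K ω (lev K (ω v)) u) :
    inS G K ω j v :=
  inS_mono hj (Or.inr ⟨rfl, h⟩)

/-- The set is independent. -/
lemma inS_indep {i j : ℕ} {u v : V} (huv : G.Adj u v) (hu : inS G K ω i u)
    (hv : inS G K ω j v) : False := by
  have h1 := inS_lev hu
  have h2 := inS_lev hv
  rcases lt_trichotomy (lev K (ω u)) (lev K (ω v)) with h | h | h
  · exact (h2.2 u huv.symm).2 (inS_of_lev h h1.2)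
  · exact (h1.2 v huv).1 h.symm
  · exact (h1.2 v huv).2 (inS_of_lev h h2.2)

lemma done_mono_succ {l : ℕ} {v : V} (h : done G K ω l v) : done G K ω (l + 1) v := Or.inl h

lemma done_mono {l m : ℕ} (h : l ≤ m) {v : V} (hv : done G K ω l v) : done G K ω m v := by
  induction m, h using Nat.le_induction with
  | base => exact hv
  | succ m _ ih => exact Or.inl ih

lemma done_zero_indep {u v : V} (huv : G.Adj u v) (hu : done G K ω 0 u)
    (hv : done G K ω 0 v) : False := inS_indep huv hu hv

/-! ### Properties of the colouring -/

lemma col_zero_of_done {v : V} (h : done G K ω 0 v) : col G K ω 0 v = some 0 := by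
  simp [col, h]

lemma col_zero_of_not_done {v : V} (h : ¬ done G K ω 0 v) : col G K ω 0 v = none := by
  simp [col, h]

lemma col_succ_of_ne {t : ℕ} {v : V} (h : col G K ω t v ≠ none) :
    col G K ω (t + 1) v = col G K ω t v := by
  simp only [col, if_pos h]

lemma col_mono {s t : ℕ} (hst : s ≤ t) {v : V} (h : col G K ω s v ≠ none) :
    col G K ω t v = col G K ω s v := by
  induction t, hst using Nat.le_induction with
  | base => rfl
  | succ t _ ih => rw [col_succ_of_ne (by rw [ih]; exact h), ih]

lemma col_none_of_le {s t : ℕ} (hst : s ≤ t) {v : V} (h : col G K ω t v = none) :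
    col G K ω s v = none := by
  by_contra hs
  rw [col_mono hst hs] at h
  exact hs h

lemma col_of_done {v : V} (h : done G K ω 0 v) (t : ℕ) : col G K ω t v = some 0 := by
  have := col_mono (Nat.zero_le t) (v := v) (by rw [col_zero_of_done h]; simp)
  rw [this, col_zero_of_done h]

/-- If `v` is newly coloured in round `t + 1`, it was ready. -/
lemma ready_of_col {t : ℕ} {v : V} (h1 : col G K ω t v = none)
    (h2 : col G K ω (t + 1) v ≠ none) : done G K ω t v ∧
      (∀ u, G.Adj v u → ¬ done G K ω 0 u → later G K ω t u v ∨ col G K ω t u ≠ none) := by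
  by_contra hcon
  apply h2
  simp only [col, h1]
  rw [if_neg (by simp), if_neg hcon]

lemma col_ne_of_new {t : ℕ} {v : V} (h1 : col G K ω t v = none) {c : Fin 5}
    (h2 : col G K ω (t + 1) v = some c) : ∀ u, G.Adj v u → col G K ω t u ≠ some c := by
  have hr := ready_of_col h1 (by rw [h2]; simp)
  simp only [col, h1] at h2
  rw [if_neg (by simp), if_pos hr] at h2
  have := List.find?_some h2
  simpa using this

/-- The round in which a vertex is coloured. -/
lemma exists_round {t : ℕ} {v : V} (h0 : ¬ done G K ω 0 v) (h : col G K ω t v ≠ none) :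
    ∃ s < t, col G K ω s v = none ∧ col G K ω (s + 1) v ≠ none := by
  induction t with
  | zero => exact absurd (col_zero_of_not_done h0) h
  | succ t ih =>
    by_cases ht : col G K ω t v = none
    · exact ⟨t, Nat.lt_succ_self _, ht, h⟩
    · obtain ⟨s, hs, h1, h2⟩ := ih ht
      exact ⟨s, hs.trans (Nat.lt_succ_self _), h1, h2⟩

lemma later_asymm {t : ℕ} {u v : V} (h1 : later G K ω t u v) (h2 : later G K ω t v u) :
    False := by
  rcases h1 with ⟨l, _, hu, hv⟩ | ⟨h, hlt⟩ <;> rcases h2 with ⟨m, _, hv', hu'⟩ | ⟨h', hlt'⟩
  · rcases le_total l m with hlm | hlm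
    · exact hu' (done_mono hlm hu)
    · exact hv (done_mono hlm hv')
  · rename_i hl
    exact hv ((h' l hl.le).mpr hu)
  · rename_i hm
    exact hu' ((h m hm.le).mpr hv')
  · exact absurd hlt (not_lt.mpr hlt'.le)

/-- The final colouring is proper. -/
lemma col_proper {t : ℕ} {u v : V} (huv : G.Adj u v) {a b : Fin 5}
    (ha : col G K ω t u = some a) (hb : col G K ω t v = some b) : a ≠ b := by
  rintro rfl
  -- a vertex coloured after its neighbour avoids the colour of the neighbour
  have key : ∀ {x y : V}, G.Adj x y → ∀ s, s < t → col G K ω s x = none →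
      col G K ω (s + 1) x ≠ none → col G K ω t x = some a → col G K ω t y = some a →
      col G K ω s y ≠ none → False := by
    intro x y hxy s hst h1 h2 hx hy h3
    have e1 : col G K ω (s + 1) x = some a := by
      rw [← hx, col_mono (Nat.succ_le_of_lt hst) h2]
    have e2 : col G K ω s y = some a := by rw [← hy, col_mono hst.le h3]
    exact col_ne_of_new h1 e1 y hxy e2
  by_cases hu0 : done G K ω 0 u
  · by_cases hv0 : done G K ω 0 v
    · exact done_zero_indep huv hu0 hv0
    · obtain ⟨s, hs, h1, h2⟩ := exists_round hv0 (t := t) (by rw [hb]; simp)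
      exact key huv.symm s hs h1 h2 hb ha (by rw [col_of_done hu0]; simp)
  · obtain ⟨s, hs, h1, h2⟩ := exists_round hu0 (t := t) (by rw [ha]; simp)
    by_cases hv0 : done G K ω 0 v
    · exact key huv s hs h1 h2 ha hb (by rw [col_of_done hv0]; simp)
    · obtain ⟨s', hs', h1', h2'⟩ := exists_round hv0 (t := t) (by rw [hb]; simp)
      rcases lt_trichotomy s s' with h | h | h
      · exact key huv.symm s' hs' h1' h2' hb ha (by
          rw [col_mono (Nat.succ_le_of_lt h) h2]; exact h2)
      · subst h
        have r1 := (ready_of_col h1 h2).2 v huv hv0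
        have r2 := (ready_of_col h1' h2').2 u huv.symm hu0
        have r1' : later G K ω s v u := by
          rcases r1 with r | r
          · exact r
          · exact absurd h1' r
        have r2' : later G K ω s u v := by
          rcases r2 with r | r
          · exact r
          · exact absurd h1 r
        exact later_asymm r1' r2'
      · exact key huv s hs h1 h2 ha hb (by
          rw [col_mono (Nat.succ_le_of_lt h) h2']; exact h2')

/-- A coloured neighbour outside `S` of an uncoloured vertex has at least the same layer. -/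
lemma layer_le_of_colored {t : ℕ} {u v : V} (huv : G.Adj u v) (hu0 : ¬ done G K ω 0 u)
    (hv0 : ¬ done G K ω 0 v) (hu : col G K ω t u ≠ none) (hv : col G K ω t v = none) (l : ℕ)
    (hl : done G K ω l u) : done G K ω l v := by
  obtain ⟨s, hs, h1, h2⟩ := exists_round hu0 hu
  obtain ⟨hd, hr⟩ := ready_of_col h1 h2
  rcases hr v huv hv0 with h | h
  · rcases h with ⟨m, hm, hmv, hmu⟩ | ⟨h, _⟩
    · -- done m v, not done m u
      rcases le_total m l with hml | hml
      · exact done_mono hml hmv
      · exact absurd (done_mono hml hl) hmu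
    · rcases le_total l s with hls | hls
      · exact (h l hls).mpr hl
      · exact done_mono hls ((h s le_rfl).mpr hd)
  · exact absurd (col_none_of_le hs.le hv) h

/-- A ready vertex gets a colour. -/
lemma col_succ_ne_none {t : ℕ} {v : V} (hdeg : {u | G.Adj v u}.ncard = 6)
    (hd : done G K ω t v)
    (hr : ∀ u, G.Adj v u → ¬ done G K ω 0 u → later G K ω t u v ∨ col G K ω t u ≠ none) :
    col G K ω (t + 1) v ≠ none := by
  classical
  by_cases hv : col G K ω t v = none
  swap
  · rw [col_succ_of_ne hv]; exact hv
  have hv0 : ¬ done G K ω 0 v := fun h => by rw [col_of_done h] at hv; simp at hv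
  -- the layer of `v`
  have hex : ∃ l, done G K ω (l + 1) v ∧ ¬ done G K ω l v := by
    by_contra hcon
    push Not at hcon
    have : ∀ l, ¬ done G K ω l v := by
      intro l
      induction l with
      | zero => exact hv0
      | succ l ih => exact fun h => ih (hcon l h)
    exact this t hd
  obtain ⟨l, hl1, hl0⟩ := hex
  have h3 : 3 ≤ {u | G.Adj v u ∧ done G K ω l u}.ncard := by
    rcases hl1 with h | h
    · exact absurd h hl0
    · exact h
  have hfin : {u | G.Adj v u}.Finite := Set.finite_of_ncard_pos (by rw [hdeg]; norm_num)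
  set A := {u | G.Adj v u ∧ done G K ω l u} with hA
  set B := {u | G.Adj v u ∧ ¬ done G K ω l u} with hB
  have hBcard : B.ncard ≤ 3 := by
    have hU : {u | G.Adj v u} = A ∪ B := by
      ext u; simp only [hA, hB, Set.mem_ofPred_eq, Set.mem_union]; tauto
    have hdisj : Disjoint A B := by
      rw [Set.disjoint_left]; rintro u ⟨_, h1⟩ ⟨_, h2⟩; exact h2 h1
    have hAf : A.Finite := hfin.subset (fun u hu => hu.1)
    have hBf : B.Finite := hfin.subset (fun u hu => hu.1)
    have := Set.ncard_union_eq hdisj hAf hBf
    rw [← hU, hdeg] at this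
    omega
  have hBf : B.Finite := hfin.subset (fun u hu => hu.1)
  -- the colours used by the neighbours
  have hused : ∀ u, G.Adj v u → ∀ c, col G K ω t u = some c →
      some c ∈ insert (some (0 : Fin 5)) ((fun u => col G K ω t u) '' B) := by
    intro u hu c hc
    by_cases hu0 : done G K ω 0 u
    · rw [col_of_done hu0] at hc
      rw [← hc]; exact Set.mem_insert _ _
    · right
      refine ⟨u, ⟨hu, fun hlu => hl0 ?_⟩, hc⟩
      exact layer_le_of_colored hu.symm hu0 hv0 (by rw [hc]; simp) hv l hlu
  have hcard : (insert (some (0 : Fin 5)) ((fun u => col G K ω t u) '' B)).ncard ≤ 4 := by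
    refine (Set.ncard_insert_le _ _).trans ?_
    have := Set.ncard_image_le (f := fun u => col G K ω t u) hBf
    omega
  -- a free colour
  have hfree : ∃ c : Fin 5, ∀ u, G.Adj v u → col G K ω t u ≠ some c := by
    by_contra hcon
    push Not at hcon
    have hsub : Set.range (fun c : Fin 5 => some c) ⊆
        insert (some (0 : Fin 5)) ((fun u => col G K ω t u) '' B) := by
      rintro _ ⟨c, rfl⟩
      obtain ⟨u, hu, hc⟩ := hcon c
      exact hused u hu c hc
    have h5 : (Set.range (fun c : Fin 5 => some c)).ncard = 5 := by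
      rw [← Set.image_univ, Set.ncard_image_of_injective _ (Option.some_injective _),
        Set.ncard_univ, Nat.card_eq_fintype_card, Fintype.card_fin]
    have := Set.ncard_le_ncard hsub ((hBf.image _).insert _)
    omega
  simp only [col, hv]
  rw [if_neg (by simp), if_pos ⟨hd, hr⟩]
  obtain ⟨c, hc⟩ := hfree
  rw [Ne, List.find?_eq_none]
  push Not
  exact ⟨c, List.mem_finRange c, by simpa using hc⟩

/-- The relation along chains of dependencies. -/
def dep (G : SimpleGraph V) (K : ℕ) (ω : V → unitInterval) (v u : V) : Prop :=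
  G.Adj v u ∧ (∀ l, done G K ω l u → done G K ω l v) ∧
    ((∀ l, (done G K ω l u ↔ done G K ω l v)) → ω u ≤ ω v)

/-- An uncoloured vertex starts a chain that ends in a vertex that is done late. -/
lemma exists_chain (hdeg : ∀ v, {u | G.Adj v u}.ncard = 6) (t : ℕ) : ∀ v,
    col G K ω (t + 1) v = none → ∃ j ≤ t, ∃ w : ℕ → V, w 0 = v ∧
      (∀ i < j, dep G K ω (w i) (w (i + 1))) ∧ ¬ done G K ω (t - j) (w j) := by
  induction t with
  | zero =>
    intro v hv
    refine ⟨0, le_rfl, fun _ => v, rfl, fun i hi => absurd hi (Nat.not_lt_zero _), ?_⟩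
    intro h
    rw [col_of_done h] at hv
    simp at hv
  | succ t ih =>
    intro v hv
    by_cases hd : done G K ω (t + 1) v
    · have hnr : ¬ (∀ u, G.Adj v u → ¬ done G K ω 0 u →
          later G K ω (t + 1) u v ∨ col G K ω (t + 1) u ≠ none) :=
        fun h => col_succ_ne_none (hdeg v) hd h hv
      push Not at hnr
      obtain ⟨u, hu, hu0, hnl, hcu⟩ := hnr
      obtain ⟨j, hj, w, hw0, hw, hwj⟩ := ih u hcu
      refine ⟨j + 1, by omega, fun i => if i = 0 then v else w (i - 1), by simp, ?_, ?_⟩
      · intro i hi
        rcases Nat.eq_zero_or_pos i with rfl | hi0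
        · simp only [if_true, zero_add, Nat.one_ne_zero, if_false, Nat.sub_self, hw0]
          refine ⟨hu, ?_, ?_⟩
          · intro l hl
            by_contra hlv
            have hlt : l < t + 1 := by
              by_contra hge
              exact hlv (done_mono (not_lt.mp hge) hd)
            exact hnl (Or.inl ⟨l, hlt, hl, hlv⟩)
          · intro hiff
            by_contra hlt
            exact hnl (Or.inr ⟨fun l _ => hiff l, not_le.mp hlt⟩)
        · have e1 : i ≠ 0 := by omega
          have e2 : i + 1 ≠ 0 := by omega
          simp only [e1, e2, if_false]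
          have := hw (i - 1) (by omega)
          have e3 : i - 1 + 1 = i + 1 - 1 := by omega
          rw [e3] at this
          exact this
      · simp only [Nat.succ_ne_zero, if_false, Nat.add_sub_cancel]
        have : t + 1 - (j + 1) = t - j := by omega
        rw [this]; exact hwj
    · exact ⟨0, Nat.zero_le _, fun _ => v, rfl, fun i hi => absurd hi (Nat.not_lt_zero _), hd⟩

end Pool.Agent.Lib.MP_e8140e_co
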