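import Pool.Agent.Lib.MP_e8140e_co.Chain

/-!
# The probability that a vertex is not coloured decays faster than every exponential
-/

set_option autoImplicit false

open MeasureTheory

namespace Pool.Agent.Lib.MP_e8140e_co

variable {V : Type*} {G : SimpleGraph V}

open Classical in
lemma col_none_subset (hdeg : ∀ v, {u | G.Adj v u}.ncard = 6) (m L M : ℕ) (hL : L ≤ m) (v : V) :
    {ω | col G 64 ω (2 * m + 1) v = none} ⊆
      (⋃ u : V, ⋃ x : V, {ω | u ≠ x ∧ ω u = ω x}) ∪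
      ((⋃ j ∈ Finset.range (m + 1), ⋃ w ∈ chains G j v,
        {ω | ¬ done G 64 ω L (w (Fin.last j))}) ∪
      ⋃ w ∈ chains G m v, if Function.Injective w then
        compat M ((L + 1) * (M + 1)) m w else ∅) := by
  intro ω hω
  by_cases hdist : ∀ u x : V, u ≠ x → ω u ≠ ω x
  swap
  · left
    push Not at hdist
    obtain ⟨u, x, hux, h⟩ := hdist
    simp only [Set.mem_iUnion]
    exact ⟨u, x, hux, h⟩
  right
  obtain ⟨j, hj, w, hw0, hw, hwj⟩ := exists_chain hdeg (2 * m) v hω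
  by_cases hjm : j ≤ m
  · left
    simp only [Set.mem_iUnion, exists_prop, Finset.mem_range]
    refine ⟨j, by omega, fun i => w i, ?_, ?_⟩
    · rw [← hw0]; exact mem_chains j w (fun i hi => (hw i hi).1)
    · intro hd
      apply hwj
      simp only [Fin.val_last] at hd
      exact done_mono (by omega) hd
  · have hw' : ∀ i < m, dep G 64 ω (w i) (w (i + 1)) := fun i hi => hw i (by omega)
    have hmem : (fun i : Fin (m + 1) => w i) ∈ chains G m v := by
      rw [← hw0]; exact mem_chains m w (fun i hi => (hw' i hi).1)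
    by_cases hd : done G 64 ω L (w m)
    · right
      simp only [Set.mem_iUnion, exists_prop]
      refine ⟨fun i => w i, hmem, ?_⟩
      rw [if_pos (chain_injective hw' hd hdist)]
      exact mem_compat hw' hd
    · left
      simp only [Set.mem_iUnion, exists_prop, Finset.mem_range]
      refine ⟨m, by omega, fun i => w i, hmem, ?_⟩
      simpa using hd

lemma col_none_le [Countable V] (hG : G.IsAcyclic) (hdeg : ∀ v, {u | G.Adj v u}.ncard = 6)
    (m l M : ℕ) (hM : 0 < M) (hl : 6 + l ≤ m) (v : V) :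
    labelMeasure V {ω | col G 64 ω (2 * m + 1) v = none} ≤
      (m + 1 : ℕ) * (6 ^ m * ENNReal.ofReal ((1 / 60) ^ (2 ^ l))) +
      6 ^ m * (((m + 2) ^ ((6 + l + 1) * (M + 1)) : ℕ) * ENNReal.ofReal (1 / M) ^ (m + 1)) := by
  classical
  refine (measure_mono (col_none_subset hdeg m (6 + l) M hl v)).trans ?_
  refine (measure_union_le _ _).trans ?_
  have h0 : labelMeasure V (⋃ u : V, ⋃ x : V, {ω | u ≠ x ∧ ω u = ω x}) = 0 := by
    apply measure_iUnion_null
    intro u
    apply measure_iUnion_null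
    intro x
    by_cases hux : u = x
    · simp [hux]
    · simpa [hux] using label_ne_ae hux
  rw [h0, zero_add]
  refine (measure_union_le _ _).trans (add_le_add ?_ ?_)
  · refine (measure_biUnion_finset_le _ _).trans ?_
    have hb : ∀ j ∈ Finset.range (m + 1), labelMeasure V (⋃ w ∈ chains G j v,
        {ω | ¬ done G 64 ω (6 + l) (w (Fin.last j))}) ≤
        6 ^ m * ENNReal.ofReal ((1 / 60) ^ (2 ^ l)) := by
      intro j hj
      refine (chains_bound (labelMeasure V) hdeg _ j v _ (fun w _ =>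
        not_done_le hG hdeg l (w (Fin.last j)))).trans ?_
      gcongr
      · norm_num
      · have := Finset.mem_range.mp hj; omega
    refine (Finset.sum_le_sum hb).trans ?_
    rw [Finset.sum_const, Finset.card_range, nsmul_eq_mul]
  · apply chains_bound (labelMeasure V) hdeg _ m v
    intro w _
    split_ifs with hinj
    · exact compat_le hM _ m w hinj
    · simp

lemma col_none_real [Countable V] (hG : G.IsAcyclic) (hdeg : ∀ v, {u | G.Adj v u}.ncard = 6)
    (m l M : ℕ) (hM : 0 < M) (hl : 6 + l ≤ m) (v : V) :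
    (labelMeasure V).real {ω | col G 64 ω (2 * m + 1) v = none} ≤
      (m + 1) * (6 ^ m * (1 / 60) ^ (2 ^ l)) +
      6 ^ m * ((m + 2) ^ ((l + 7) * (M + 1)) * (1 / M) ^ (m + 1)) := by
  have h := col_none_le hG hdeg m l M hM hl v
  have hMr : (0 : ℝ) ≤ 1 / M := by positivity
  rw [measureReal_def]
  apply ENNReal.toReal_le_of_le_ofReal (by positivity)
  refine h.trans (le_of_eq ?_)
  rw [ENNReal.ofReal_add (by positivity) (by positivity)]
  have e6 : ENNReal.ofReal (6 ^ m) = 6 ^ m := by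
    rw [ENNReal.ofReal_pow (by norm_num)]; norm_num
  congr 1
  · rw [ENNReal.ofReal_mul (by positivity), ENNReal.ofReal_mul (by positivity), e6]
    congr 1
    rw [← ENNReal.ofReal_natCast]
    push_cast
    rfl
  · rw [ENNReal.ofReal_mul (by positivity), ENNReal.ofReal_mul (by positivity), e6,
      ENNReal.ofReal_pow hMr]
    congr 2
    rw [← ENNReal.ofReal_natCast]
    push_cast
    have : 6 + l + 1 = l + 7 := by omega
    rw [this]

/-- Faster than every exponential. -/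
lemma superexp [Countable V] (hG : G.IsAcyclic) (hdeg : ∀ v, {u | G.Adj v u}.ncard = 6)
    (A : ℕ) (hA : 0 < A) : ∃ m0 : ℕ, ∀ m ≥ m0, ∀ v,
      (labelMeasure V).real {ω | col G 64 ω (2 * m + 1) v = none} ≤ (1 / (A : ℝ)) ^ m := by
  set M : ℕ := 48 * A with hM
  have hM0 : 0 < M := by omega
  -- polynomial against exponential
  have hk : ∃ k0 : ℕ, ∀ k ≥ k0, (k + 1) * ((2 * k + 7) * (M + 1)) + 1 ≤ 2 ^ k := by
    have ht := tendsto_pow_const_div_const_pow_of_one_lt 2 (r := (2 : ℝ)) (by norm_num)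
    have he := ht.eventually (gt_mem_nhds (show (0 : ℝ) < 1 / (19 * (M + 1)) by positivity))
    obtain ⟨k0, hk0⟩ := Filter.eventually_atTop.mp he
    refine ⟨max k0 1, fun k hk => ?_⟩
    have h1 := hk0 k (le_trans (le_max_left _ _) hk)
    have hk1 : 1 ≤ k := le_trans (le_max_right _ _) hk
    rw [div_lt_div_iff₀ (by positivity) (by positivity), one_mul] at h1
    have h2 : k ^ 2 * (19 * (M + 1)) < 2 ^ k := by exact_mod_cast h1
    have h3 : (k + 1) * (2 * k + 7) ≤ 18 * k ^ 2 := by nlinarith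
    have h4 : (k + 1) * ((2 * k + 7) * (M + 1)) ≤ 18 * k ^ 2 * (M + 1) := by
      rw [← mul_assoc]; exact Nat.mul_le_mul_right _ h3
    have h5 : 1 ≤ k ^ 2 * (M + 1) := Nat.one_le_iff_ne_zero.mpr (by positivity)
    nlinarith
  obtain ⟨k0, hk0⟩ := hk
  refine ⟨max (2 ^ k0) (4 * A), fun m hm v => ?_⟩
  have hm1 : 2 ^ k0 ≤ m + 1 := by have := le_trans (le_max_left _ _) hm; omega
  have hm2 : 4 * A ≤ m := le_trans (le_max_right _ _) hm
  set k := Nat.log 2 (m + 1) with hkdef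
  have hkk : k0 ≤ k := Nat.le_log_of_pow_le (by norm_num) hm1
  have hpoly := hk0 k hkk
  have hk2 : 2 ^ k ≤ m + 1 := Nat.pow_log_le_self 2 (by omega)
  have hk3 : m + 1 < 2 ^ (k + 1) := Nat.lt_pow_succ_log_self (by norm_num) _
  have hl : 6 + 2 * k ≤ m := by
    have : 2 * k + 7 ≤ (k + 1) * ((2 * k + 7) * (M + 1)) := by
      calc 2 * k + 7 = 1 * ((2 * k + 7) * 1) := by ring
        _ ≤ (k + 1) * ((2 * k + 7) * (M + 1)) := by gcongr <;> omega
    omega
  have hb := col_none_real hG hdeg m (2 * k) M hM0 hl v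
  refine hb.trans ?_
  have hAr : (1 : ℝ) ≤ A := by exact_mod_cast hA
  have hAr0 : (0 : ℝ) < A := by linarith
  have hm0 : 1 ≤ m := by omega
  -- first term
  have t1 : ((m : ℝ) + 1) * (6 ^ m * (1 / 60) ^ (2 ^ (2 * k))) ≤ 1 / 2 * (1 / (A : ℝ)) ^ m := by
    have e1 : A * m ≤ 2 ^ (2 * k) := by
      have : 2 ^ (2 * k) = 2 ^ k * 2 ^ k := by rw [two_mul, pow_add]
      rw [this]
      rw [pow_succ] at hk3
      have h6 : m ≤ 2 * 2 ^ k := by omega
      have h7 : m * m ≤ 4 * (2 ^ k * 2 ^ k) := by nlinarith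
      have h8 : 4 * A * m ≤ m * m := Nat.mul_le_mul_right _ hm2
      nlinarith
    have e2 : ((1 : ℝ) / 60) ^ (2 ^ (2 * k)) ≤ (1 / 60) ^ (A * m) :=
      pow_le_pow_of_le_one (by norm_num) (by norm_num) e1
    have e3 : ((1 : ℝ) / 60) ^ A ≤ 1 / (24 * A) := by
      have h9 : A < 2 ^ A := Nat.lt_two_pow_self
      have h10 : 24 * A ≤ 60 ^ A := by
        calc 24 * A ≤ 30 * 2 ^ A := by omega
          _ ≤ 30 ^ A * 2 ^ A := by
              apply Nat.mul_le_mul_right
              calc 30 = 30 ^ 1 := by norm_num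
                _ ≤ 30 ^ A := Nat.pow_le_pow_right (by norm_num) hA
          _ = 60 ^ A := by rw [← mul_pow]; norm_num
      rw [one_div_pow]
      apply one_div_le_one_div_of_le (by positivity)
      exact_mod_cast h10
    have e4 : ((1 : ℝ) / 60) ^ (A * m) ≤ (1 / (24 * A)) ^ m := by
      rw [pow_mul]; gcongr
    have e5 : ((m : ℝ) + 1) * (1 / 4) ^ m ≤ 1 / 2 := by
      have h11 : ∀ n : ℕ, 1 ≤ n → ((n : ℝ) + 1) * (1 / 4) ^ n ≤ 1 / 2 := by
        intro n hn
        induction n, hn using Nat.le_induction with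
        | base => norm_num
        | succ n hn ih =>
          have : (0 : ℝ) < (1 / 4) ^ n := by positivity
          have hn' : (1 : ℝ) ≤ n := by exact_mod_cast hn
          rw [pow_succ]
          push_cast
          nlinarith
      exact h11 m hm0
    have e6 : (6 : ℝ) ^ m * (1 / (24 * A)) ^ m = (1 / 4) ^ m * (1 / (A : ℝ)) ^ m := by
      rw [← mul_pow, ← mul_pow]; congr 1; field_simp; norm_num
    calc ((m : ℝ) + 1) * (6 ^ m * (1 / 60) ^ (2 ^ (2 * k)))
        ≤ ((m : ℝ) + 1) * (6 ^ m * (1 / (24 * A)) ^ m) := by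
          gcongr
          exact e2.trans e4
      _ = (((m : ℝ) + 1) * (1 / 4) ^ m) * (1 / (A : ℝ)) ^ m := by rw [e6]; ring
      _ ≤ 1 / 2 * (1 / (A : ℝ)) ^ m := by gcongr
  -- second term
  have t2 : (6 : ℝ) ^ m * (((m : ℝ) + 2) ^ ((2 * k + 7) * (M + 1)) * (1 / (M : ℝ)) ^ (m + 1)) ≤
      1 / 2 * (1 / (A : ℝ)) ^ m := by
    have e1 : (m + 2) ^ ((2 * k + 7) * (M + 1)) ≤ 2 ^ m := by
      calc (m + 2) ^ ((2 * k + 7) * (M + 1)) ≤ (2 ^ (k + 1)) ^ ((2 * k + 7) * (M + 1)) :=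
            Nat.pow_le_pow_left (by omega) _
        _ = 2 ^ ((k + 1) * ((2 * k + 7) * (M + 1))) := by rw [← pow_mul]
        _ ≤ 2 ^ m := Nat.pow_le_pow_right (by norm_num) (by omega)
    have e2 : ((m : ℝ) + 2) ^ ((2 * k + 7) * (M + 1)) ≤ 2 ^ m := by exact_mod_cast e1
    have hMr : (M : ℝ) = 48 * A := by rw [hM]; push_cast; ring
    have e3 : (6 : ℝ) ^ m * (2 ^ m * (1 / (M : ℝ)) ^ m) = (1 / 4) ^ m * (1 / (A : ℝ)) ^ m := by
      rw [← mul_pow, ← mul_pow, ← mul_pow, hMr]; congr 1; field_simp; norm_num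
    have e4 : (1 : ℝ) / M ≤ 1 / 2 := by
      rw [hMr]; apply one_div_le_one_div_of_le (by norm_num); linarith
    have e5 : ((1 : ℝ) / 4) ^ m ≤ 1 := pow_le_one₀ (by norm_num) (by norm_num)
    calc (6 : ℝ) ^ m * (((m : ℝ) + 2) ^ ((2 * k + 7) * (M + 1)) * (1 / (M : ℝ)) ^ (m + 1))
        ≤ (6 : ℝ) ^ m * (2 ^ m * (1 / (M : ℝ)) ^ (m + 1)) := by gcongr
      _ = ((6 : ℝ) ^ m * (2 ^ m * (1 / (M : ℝ)) ^ m)) * (1 / M) := by rw [pow_succ]; ring
      _ = ((1 / 4) ^ m * (1 / (A : ℝ)) ^ m) * (1 / M) := by rw [e3]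
      _ ≤ (1 * (1 / (A : ℝ)) ^ m) * (1 / 2) := by gcongr
      _ = 1 / 2 * (1 / (A : ℝ)) ^ m := by ring
  have : (1 : ℝ) / 2 * (1 / (A : ℝ)) ^ m + 1 / 2 * (1 / (A : ℝ)) ^ m = (1 / (A : ℝ)) ^ m := by
    ring

  linarith

end Pool.Agent.Lib.MP_e8140e_co
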