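import Pool.Agent.Lib.MP_e8140e_co.Tree

/-!
# Long chains of dependencies are unlikely
-/

set_option autoImplicit false

open MeasureTheory

namespace Pool.Agent.Lib.MP_e8140e_co

variable {V : Type*} {G : SimpleGraph V}

/-- Sequences of successively adjacent vertices. -/
def chains (G : SimpleGraph V) : (m : ℕ) → V → Set (Fin (m + 1) → V)
  | 0, v => {fun _ => v}
  | m + 1, v => {w | ∃ u, G.Adj v u ∧ ∃ w' ∈ chains G m u, w = Fin.cons v w'}

lemma mem_chains (m : ℕ) : ∀ w : ℕ → V, (∀ i < m, G.Adj (w i) (w (i + 1))) →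
    (fun i : Fin (m + 1) => w i) ∈ chains G m (w 0) := by
  induction m with
  | zero =>
    intro w _
    simp only [chains, Set.mem_singleton_iff]
    funext i
    have : (i : ℕ) = 0 := by omega
    rw [this]
  | succ m ih =>
    intro w hw
    refine ⟨w 1, hw 0 (Nat.succ_pos _), fun i => w (i + 1), ?_, ?_⟩
    · exact ih (fun i => w (i + 1)) (fun i hi => hw (i + 1) (by omega))
    · funext i
      refine Fin.cases ?_ (fun j => ?_) i
      · simp
      · simp

/-- Union bound over sequences. -/
lemma chains_bound {Ω : Type*} [MeasurableSpace Ω] (μ : Measure Ω)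
    (hdeg : ∀ v, {u | G.Adj v u}.ncard = 6) (c : ENNReal) (m : ℕ) :
    ∀ (v : V) (E : (Fin (m + 1) → V) → Set Ω), (∀ w ∈ chains G m v, μ (E w) ≤ c) →
      μ (⋃ w ∈ chains G m v, E w) ≤ 6 ^ m * c := by
  induction m with
  | zero =>
    intro v E h
    simp only [chains, Set.mem_singleton_iff, Set.iUnion_iUnion_eq_left, pow_zero, one_mul]
    exact h _ rfl
  | succ m ih =>
    intro v E h
    have hfin : {u | G.Adj v u}.Finite := Set.finite_of_ncard_pos (by rw [hdeg]; norm_num)
    have hsub : (⋃ w ∈ chains G (m + 1) v, E w) ⊆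
        ⋃ u ∈ hfin.toFinset, ⋃ w' ∈ chains G m u, E (Fin.cons v w') := by
      intro x hx
      simp only [Set.mem_iUnion, exists_prop] at hx
      obtain ⟨w, ⟨u, hu, w', hw', rfl⟩, hx⟩ := hx
      simp only [Set.mem_iUnion, exists_prop, Set.Finite.mem_toFinset]
      exact ⟨u, hu, w', hw', hx⟩
    refine (measure_mono hsub).trans ((measure_biUnion_finset_le _ _).trans ?_)
    have hb : ∀ u ∈ hfin.toFinset, μ (⋃ w' ∈ chains G m u, E (Fin.cons v w')) ≤ 6 ^ m * c := by
      intro u hu
      rw [Set.Finite.mem_toFinset] at hu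
      exact ih u (fun w' => E (Fin.cons v w')) (fun w' hw' => h _ ⟨u, hu, w', hw', rfl⟩)
    refine (Finset.sum_le_sum hb).trans ?_
    rw [Finset.sum_const, nsmul_eq_mul, ← Set.ncard_eq_toFinset_card _ hfin, hdeg]
    rw [pow_succ, mul_comm ((6 : ENNReal) ^ m) 6, mul_assoc]
    norm_num

/-! ### Counting monotone sequences -/

lemma monotone_count (m N : ℕ) :
    {h : Fin (m + 1) → Fin N | Monotone h}.ncard ≤ (m + 2) ^ N := by
  classical
  let F : (Fin (m + 1) → Fin N) → (Fin N → Fin (m + 2)) := fun h a =>
    ⟨(Finset.univ.filter (fun i => h i < a)).card, by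
      have := Finset.card_filter_le (Finset.univ : Finset (Fin (m + 1))) (fun i => h i < a)
      simp only [Finset.card_univ, Fintype.card_fin] at this
      omega⟩
  have key : ∀ h : Fin (m + 1) → Fin N, Monotone h → ∀ i a, h i < a ↔
      (i : ℕ) < (Finset.univ.filter (fun i => h i < a)).card := by
    intro h hh i a
    constructor
    · intro hi
      have hsub : Finset.Iic i ⊆ Finset.univ.filter (fun i => h i < a) := by
        intro j hj
        rw [Finset.mem_Iic] at hj
        simp only [Finset.mem_filter, Finset.mem_univ, true_and]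
        exact (hh hj).trans_lt hi
      have := Finset.card_le_card hsub
      rw [Fin.card_Iic] at this
      omega
    · intro hi
      by_contra hcon
      have hsub : Finset.univ.filter (fun i => h i < a) ⊆ Finset.Iio i := by
        intro j hj
        simp only [Finset.mem_filter, Finset.mem_univ, true_and] at hj
        rw [Finset.mem_Iio]
        by_contra hij
        exact hcon ((hh (not_lt.mp hij)).trans_lt hj)
      have := Finset.card_le_card hsub
      rw [Fin.card_Iio] at this
      omega
  have hinj : Set.InjOn F {h | Monotone h} := by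
    intro h hh h' hh' hF
    funext i
    have hcard : ∀ a, (Finset.univ.filter (fun i => h i < a)).card =
        (Finset.univ.filter (fun i => h' i < a)).card := by
      intro a
      have := congrFun hF a
      simpa [F] using this
    apply le_antisymm
    · by_contra hlt
      rw [not_le] at hlt
      have h1 := (key h' hh' i (h i)).mp hlt
      rw [← hcard] at h1
      exact absurd ((key h hh i (h i)).mpr h1) (lt_irrefl _)
    · by_contra hlt
      rw [not_le] at hlt
      have h1 := (key h hh i (h' i)).mp hlt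
      rw [hcard] at h1
      exact absurd ((key h' hh' i (h' i)).mpr h1) (lt_irrefl _)
  rw [← hinj.ncard_image]
  refine (Set.ncard_le_ncard (Set.subset_univ _)).trans ?_
  rw [Set.ncard_univ, Nat.card_eq_fintype_card]
  simp

/-! ### Labels of distinct vertices are independent -/

lemma map_injective {ι : Type*} (f : ι → V) (hf : Function.Injective f) :
    (labelMeasure V).map (fun ω i => ω (f i)) = labelMeasure ι := by
  classical
  unfold labelMeasure
  apply Measure.eq_infinitePi
  intro s t ht
  have hmeas : Measurable (fun (ω : V → unitInterval) (i : ι) => ω (f i)) := by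
    apply measurable_pi_lambda
    intro w
    exact measurable_pi_apply _
  rw [Measure.map_apply hmeas (MeasurableSet.pi s.countable_toSet (fun i _ => ht i))]
  have hpre : (fun (ω : V → unitInterval) (i : ι) => ω (f i)) ⁻¹' (Set.pi s t) =
      Set.pi (s.image f : Finset V) (fun x => if hx : ∃ w, f w = x then
        t (Classical.choose hx) else Set.univ) := by
    ext ω
    simp only [Set.mem_preimage, Set.mem_pi, Finset.mem_coe, Finset.mem_image]
    constructor
    · rintro hω _ ⟨w, hw, rfl⟩
      have hx : ∃ w', f w' = f w := ⟨w, rfl⟩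
      rw [dif_pos hx]
      have : Classical.choose hx = w := hf (Classical.choose_spec hx)
      rw [this]
      exact hω w hw
    · intro hω w hw
      have := hω (f w) ⟨w, hw, rfl⟩
      have hx : ∃ w', f w' = f w := ⟨w, rfl⟩
      rw [dif_pos hx] at this
      have e : Classical.choose hx = w := hf (Classical.choose_spec hx)
      rw [e] at this
      exact this
  rw [hpre, Measure.infinitePi_pi]
  · rw [Finset.prod_image (fun _ _ _ _ hw => hf hw)]
    apply Finset.prod_congr rfl
    intro w _
    have hx : ∃ w', f w' = f w := ⟨w, rfl⟩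
    rw [dif_pos hx]
    have e : Classical.choose hx = w := hf (Classical.choose_spec hx)
    rw [e]
  · intro x _
    split_ifs
    · exact ht _
    · exact MeasurableSet.univ

lemma volume_lev_le' {M : ℕ} (hM : 0 < M) (j : ℕ) :
    (volume : Measure unitInterval) {x | lev M x = j} ≤ ENNReal.ofReal (1 / M) := by
  rw [ENNReal.le_ofReal_iff_toReal_le (measure_ne_top _ _) (by positivity)]
  exact volume_lev_le hM j

lemma cells_le {M m : ℕ} (hM : 0 < M) (w : Fin m → V) (hw : Function.Injective w)
    (c : Fin m → ℕ) :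
    labelMeasure V {ω | ∀ i, lev M (ω (w i)) = c i} ≤ ENNReal.ofReal (1 / M) ^ m := by
  have hmeas : Measurable (fun (ω : V → unitInterval) (i : Fin m) => ω (w i)) := by
    apply measurable_pi_lambda
    intro w
    exact measurable_pi_apply _
  have hset : {ω : V → unitInterval | ∀ i, lev M (ω (w i)) = c i} =
      (fun (ω : V → unitInterval) (i : Fin m) => ω (w i)) ⁻¹'
        (Set.pi (Finset.univ : Finset (Fin m)) (fun i => {x | lev M x = c i})) := by
    ext ω; simp
  have hms : MeasurableSet (Set.pi ((Finset.univ : Finset (Fin m)) : Set (Fin m))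
      (fun i => {x : unitInterval | lev M x = c i})) :=
    MeasurableSet.pi (Finset.countable_toSet _) (fun i _ => measurableSet_levB _)
  rw [hset, ← Measure.map_apply hmeas hms, map_injective w hw]
  unfold labelMeasure
  rw [Measure.infinitePi_pi _ (fun i _ => measurableSet_levB _)]
  refine (Finset.prod_le_prod' (fun i _ => volume_lev_le' hM (c i))).trans ?_
  simp

/-- Almost surely all labels are different. -/
lemma label_ne_ae {u v : V} (huv : u ≠ v) : labelMeasure V {ω | ω u = ω v} = 0 := by
  have hb : ∀ M : ℕ, 0 < M → (labelMeasure V).real {ω | ω u = ω v} ≤ 2 / M := by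
    intro M hM
    have hMr : (0 : ℝ) < M := by exact_mod_cast hM
    have hinj : Function.Injective (![u, v] : Fin 2 → V) := by
      intro i j hij
      fin_cases i <;> fin_cases j <;> simp_all
    have hsub : {ω : V → unitInterval | ω u = ω v} ⊆
        ⋃ c ∈ Finset.range (M + 1), {ω | ∀ i, lev M (ω ((![u, v] : Fin 2 → V) i)) = c} := by
      intro ω hω
      simp only [Set.mem_iUnion, exists_prop, Finset.mem_range]
      refine ⟨lev M (ω u), Nat.lt_succ_of_le (lev_le _), ?_⟩
      intro i
      fin_cases i
      · rfl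
      · simp only [Set.mem_ofPred_eq] at hω
        simp [hω]
    have h1 : (labelMeasure V).real {ω | ω u = ω v} ≤
        ∑ c ∈ Finset.range (M + 1), (1 / (M : ℝ)) ^ 2 := by
      refine (measureReal_mono hsub (measure_ne_top _ _)).trans
        ((measureReal_biUnion_finset_le _ _).trans ?_)
      apply Finset.sum_le_sum
      intro c _
      have := cells_le hM (![u, v] : Fin 2 → V) hinj (fun _ => c)
      rw [← ENNReal.ofReal_pow (by positivity),
        ENNReal.le_ofReal_iff_toReal_le (measure_ne_top _ _) (by positivity)] at this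
      exact this
    refine h1.trans ?_
    rw [Finset.sum_const, Finset.card_range, nsmul_eq_mul]
    have : ((M + 1 : ℕ) : ℝ) ≤ 2 * M := by
      push_cast
      have : (1 : ℝ) ≤ M := by exact_mod_cast hM
      linarith
    calc ((M + 1 : ℕ) : ℝ) * (1 / (M : ℝ)) ^ 2 ≤ 2 * M * (1 / (M : ℝ)) ^ 2 :=
        mul_le_mul_of_nonneg_right this (by positivity)
      _ = 2 / M := by field_simp
  have h0 : (labelMeasure V).real {ω | ω u = ω v} = 0 := by
    by_contra hne
    have hpos : 0 < (labelMeasure V).real {ω | ω u = ω v} :=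
      lt_of_le_of_ne measureReal_nonneg (Ne.symm hne)
    obtain ⟨M, hM⟩ := exists_nat_gt (2 / (labelMeasure V).real {ω | ω u = ω v})
    have hM0 : (0 : ℝ) < M := lt_trans (by positivity) hM
    have := hb M (by exact_mod_cast hM0)
    rw [div_lt_iff₀ hpos] at hM
    rw [le_div_iff₀ hM0] at this
    linarith [mul_comm (M : ℝ) ((labelMeasure V).real {ω | ω u = ω v})]
  rwa [measureReal_def, ENNReal.toReal_eq_zero_iff, or_iff_left (measure_ne_top _ _)] at h0

/-! ### Layers along a chain -/

variable {K : ℕ} {ω : V → unitInterval}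

/-- The layer of a vertex. -/
noncomputable def lay (G : SimpleGraph V) (K : ℕ) (ω : V → unitInterval) (x : V) : ℕ :=
  sInf {l | done G K ω l x}

lemma done_lay {x : V} {l : ℕ} (h : done G K ω l x) : done G K ω (lay G K ω x) x :=
  Nat.sInf_mem (s := {l | done G K ω l x}) ⟨l, h⟩

lemma lay_le {x : V} {l : ℕ} (h : done G K ω l x) : lay G K ω x ≤ l :=
  Nat.sInf_le (s := {l | done G K ω l x}) h

lemma done_iff_lay {x : V} {L : ℕ} (h : done G K ω L x) (l : ℕ) :
    done G K ω l x ↔ lay G K ω x ≤ l :=
  ⟨lay_le, fun hl => done_mono hl (done_lay h)⟩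

/-- The position of a vertex in the order of dependencies. -/
noncomputable def pos (G : SimpleGraph V) (K : ℕ) (ω : V → unitInterval) (x : V) :
    ℕ ×ₗ unitIntervalᵒᵈ := toLex (lay G K ω x, OrderDual.toDual (ω x))

/-- The discretised position. -/
noncomputable def rk (G : SimpleGraph V) (K M : ℕ) (ω : V → unitInterval) (x : V) : ℕ :=
  lay G K ω x * (M + 1) + (M - lev M (ω x))

lemma dep_done {v u : V} (h : dep G K ω v u) {L : ℕ} (hu : done G K ω L u) :
    done G K ω L v := h.2.1 L hu

lemma dep_lay {v u : V} (h : dep G K ω v u) {L : ℕ} (hu : done G K ω L u) :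
    lay G K ω v < lay G K ω u ∨ (lay G K ω v = lay G K ω u ∧ ω u ≤ ω v) := by
  have h1 : lay G K ω v ≤ lay G K ω u := lay_le (h.2.1 _ (done_lay hu))
  rcases lt_or_eq_of_le h1 with h2 | h2
  · exact Or.inl h2
  · refine Or.inr ⟨h2, h.2.2 (fun l => ?_)⟩
    rw [done_iff_lay hu, done_iff_lay (dep_done h hu), h2]

lemma dep_pos {v u : V} (h : dep G K ω v u) {L : ℕ} (hu : done G K ω L u)
    (hne : ω v ≠ ω u) : pos G K ω v < pos G K ω u := by
  unfold pos
  rw [Prod.Lex.toLex_lt_toLex]
  rcases dep_lay h hu with h1 | ⟨h1, h2⟩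
  · exact Or.inl h1
  · exact Or.inr ⟨h1, OrderDual.toDual_lt_toDual.mpr (lt_of_le_of_ne h2 hne.symm)⟩

lemma lev_mono {M : ℕ} {x y : unitInterval} (h : x ≤ y) : lev M x ≤ lev M y := by
  unfold lev
  apply Nat.floor_le_floor
  have : (x : ℝ) ≤ y := h
  gcongr

lemma dep_rk {M : ℕ} {v u : V} (h : dep G K ω v u) {L : ℕ} (hu : done G K ω L u) :
    rk G K M ω v ≤ rk G K M ω u := by
  unfold rk
  rcases dep_lay h hu with h1 | ⟨h1, h2⟩
  · have : (lay G K ω v + 1) * (M + 1) ≤ lay G K ω u * (M + 1) :=
      Nat.mul_le_mul_right _ h1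
    have h3 : M - lev M (ω v) ≤ M := Nat.sub_le _ _
    nlinarith
  · rw [h1]
    have := lev_mono (M := M) h2
    omega

/-- The event that the labels along `w` are compatible with a monotone sequence. -/
def compat (M N m : ℕ) (w : Fin (m + 1) → V) : Set (V → unitInterval) :=
  {ω | ∃ h : Fin (m + 1) → Fin N, Monotone h ∧ ∀ i, lev M (ω (w i)) = M - (h i : ℕ) % (M + 1)}

lemma compat_le {M : ℕ} (hM : 0 < M) (N m : ℕ) (w : Fin (m + 1) → V)
    (hw : Function.Injective w) :
    labelMeasure V (compat M N m w) ≤
      ((m + 2) ^ N : ℕ) * ENNReal.ofReal (1 / M) ^ (m + 1) := by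
  classical
  have hfin : {h : Fin (m + 1) → Fin N | Monotone h}.Finite := Set.toFinite _
  have hsub : compat M N m w ⊆ ⋃ h ∈ hfin.toFinset,
      {ω | ∀ i, lev M (ω (w i)) = M - (h i : ℕ) % (M + 1)} := by
    rintro ω ⟨h, hh, hω⟩
    simp only [Set.mem_iUnion, exists_prop, Set.Finite.mem_toFinset]
    exact ⟨h, hh, hω⟩
  refine (measure_mono hsub).trans ((measure_biUnion_finset_le _ _).trans ?_)
  refine (Finset.sum_le_sum (fun h _ => cells_le hM w hw _)).trans ?_
  rw [Finset.sum_const, nsmul_eq_mul, ← Set.ncard_eq_toFinset_card _ hfin]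
  gcongr
  exact_mod_cast monotone_count m N

lemma mem_compat {M m L : ℕ} {w : ℕ → V}
    (hdep : ∀ i < m, dep G K ω (w i) (w (i + 1))) (hL : done G K ω L (w m)) :
    ω ∈ compat M ((L + 1) * (M + 1)) m (fun i : Fin (m + 1) => w i) := by
  have hd : ∀ j ≤ m, done G K ω L (w (m - j)) := by
    intro j
    induction j with
    | zero => intro _; exact hL
    | succ j ih =>
      intro hj
      have := hdep (m - (j + 1)) (by omega)
      have e : m - (j + 1) + 1 = m - j := by omega
      rw [e] at this
      exact dep_done this (ih (by omega))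
  have hd' : ∀ i ≤ m, done G K ω L (w i) := by
    intro i hi
    have := hd (m - i) (by omega)
    have e : m - (m - i) = i := by omega
    rwa [e] at this
  have hlev : ∀ x, lev M (ω x) ≤ M := fun x => lev_le _
  have hrk : ∀ i ≤ m, rk G K M ω (w i) < (L + 1) * (M + 1) := by
    intro i hi
    have h1 := lay_le (hd' i hi)
    unfold rk
    have h2 : lay G K ω (w i) * (M + 1) ≤ L * (M + 1) := Nat.mul_le_mul_right _ h1
    have h3 : M - lev M (ω (w i)) ≤ M := Nat.sub_le _ _
    nlinarith
  refine ⟨fun i => ⟨rk G K M ω (w i), hrk i (by omega)⟩, ?_, ?_⟩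
  · apply Fin.monotone_iff_le_succ.mpr
    intro i
    rw [Fin.le_def]
    simp only [Fin.val_castSucc, Fin.val_succ]
    exact dep_rk (hdep i (by omega)) (hd' (i + 1) (by omega))
  · intro i
    simp only
    unfold rk
    have h3 : M - lev M (ω (w i)) < M + 1 := by omega
    rw [Nat.mul_comm, Nat.mul_add_mod, Nat.mod_eq_of_lt h3]
    have := hlev (w i)
    omega

lemma chain_injective {m L : ℕ} {w : ℕ → V}
    (hdep : ∀ i < m, dep G K ω (w i) (w (i + 1))) (hL : done G K ω L (w m))
    (hne : ∀ u v : V, u ≠ v → ω u ≠ ω v) :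
    Function.Injective (fun i : Fin (m + 1) => w i) := by
  have hd : ∀ j ≤ m, done G K ω L (w (m - j)) := by
    intro j
    induction j with
    | zero => intro _; exact hL
    | succ j ih =>
      intro hj
      have := hdep (m - (j + 1)) (by omega)
      have e : m - (j + 1) + 1 = m - j := by omega
      rw [e] at this
      exact dep_done this (ih (by omega))
  have hd' : ∀ i ≤ m, done G K ω L (w i) := by
    intro i hi
    have := hd (m - i) (by omega)
    have e : m - (m - i) = i := by omega
    rwa [e] at this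
  have hstrict : StrictMono (fun i : Fin (m + 1) => pos G K ω (w i)) := by
    apply Fin.strictMono_iff_lt_succ.mpr
    intro i
    simp only [Fin.val_castSucc, Fin.val_succ]
    have h := hdep i (by omega)
    exact dep_pos h (hd' (i + 1) (by omega)) (hne _ _ h.1.ne)
  intro i j hij
  apply hstrict.injective
  simp only at hij
  simp only [hij]

end Pool.Agent.Lib.MP_e8140e_co
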