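import Pool.Agent.Lib.MP_e8140e_co.Theta

/-!
# Counting children with a property
-/

set_option autoImplicit false

open MeasureTheory

namespace Pool.Agent.Lib.MP_e8140e_co

lemma measurable_sub (k : Fin 5) : Measurable (fun θ : Theta => sub θ k) := by
  apply measurable_pi_lambda
  intro w
  exact measurable_pi_apply _

lemma measurable_root : Measurable (fun θ : Theta => θ []) := measurable_pi_apply _

/-- The product formula, for real measures. -/
lemma nu_box_real (B : Set unitInterval) (hB : MeasurableSet B) (Q : Fin 5 → Set Theta)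
    (hQ : ∀ k, MeasurableSet (Q k)) :
    nu.real {θ | θ [] ∈ B ∧ ∀ k, sub θ k ∈ Q k} =
      (volume : Measure unitInterval).real B * ∏ k, nu.real (Q k) := by
  simp only [measureReal_def]
  rw [nu_box B hB Q hQ, ENNReal.toReal_mul, ENNReal.toReal_prod]

/-- The polynomial that gives the probability of at most two successes. -/
def H (y x : ℝ) : ℝ := x ^ 5 + 5 * x ^ 4 * y + 10 * x ^ 3 * y ^ 2

lemma sum_ite_card (y x : ℝ) :
    ∑ T ∈ (Finset.univ : Finset (Finset (Fin 5))).filter (fun T => T.card ≤ 2),
      ∏ k, (if k ∈ T then y else x) = H y x := by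
  have h1 : ∀ T : Finset (Fin 5), ∏ k, (if k ∈ T then y else x) =
      y ^ T.card * x ^ (5 - T.card) := by
    intro T
    rw [Finset.prod_ite]
    simp only [Finset.prod_const]
    congr 2
    · congr 1; ext; simp
    · rw [Finset.filter_not, Finset.card_sdiff_of_subset (by simp)]
      simp
  rw [Finset.sum_filter]
  simp only [h1]
  have h2 := Finset.sum_powerset_apply_card
    (fun m => if m ≤ 2 then y ^ m * x ^ (5 - m) else 0) (x := (Finset.univ : Finset (Fin 5)))
  rw [Finset.powerset_univ] at h2
  rw [h2]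
  simp only [Finset.card_univ, Fintype.card_fin, Finset.sum_range_succ, Finset.range_zero,
    Finset.sum_empty, H]
  norm_num [Nat.choose]
  ring

lemma measurableSet_types (D : Set Theta) (hD : MeasurableSet D) (P : Set (Set (Fin 5))) :
    MeasurableSet {θ : Theta | {k | sub θ k ∈ D} ∈ P} := by
  have : {θ : Theta | {k | sub θ k ∈ D} ∈ P} = ⋃ T ∈ P, ⋂ k, {θ | sub θ k ∈ D ↔ k ∈ T} := by
    ext θ
    simp only [Set.mem_ofPred_eq, Set.mem_iUnion, Set.mem_iInter, exists_prop]
    constructor
    · intro h; exact ⟨_, h, fun k => Iff.rfl⟩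
    · rintro ⟨T, hT, h⟩
      have : {k | sub θ k ∈ D} = T := by ext k; exact h k
      rw [this]; exact hT
  rw [this]
  apply (Set.toFinite P).measurableSet_biUnion
  intro T _
  apply MeasurableSet.iInter
  intro k
  exact MeasurableSet.iff (measurable_sub k hD) (MeasurableSet.const _)

lemma nu_count (B : Set unitInterval) (hB : MeasurableSet B) (D N : Set Theta)
    (hD : MeasurableSet D) (hN : MeasurableSet N) (hdisj : Disjoint D N) :
    nu.real {θ | θ [] ∈ B ∧ (∀ k, sub θ k ∈ D ∪ N) ∧ {k | sub θ k ∈ D}.ncard ≤ 2} =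
      (volume : Measure unitInterval).real B * H (nu.real D) (nu.real N) := by
  classical
  have hset : {θ : Theta | θ [] ∈ B ∧ (∀ k, sub θ k ∈ D ∪ N) ∧ {k | sub θ k ∈ D}.ncard ≤ 2} =
      ⋃ T ∈ (Finset.univ : Finset (Finset (Fin 5))).filter (fun T => T.card ≤ 2),
        {θ | θ [] ∈ B ∧ ∀ k, sub θ k ∈ (if k ∈ T then D else N)} := by
    ext θ
    simp only [Set.mem_ofPred_eq, Set.mem_iUnion, exists_prop, Finset.mem_filter,
      Finset.mem_univ, true_and]
    constructor
    · rintro ⟨h1, h2, h3⟩
      refine ⟨Finset.univ.filter (fun k => sub θ k ∈ D), ?_, h1, ?_⟩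
      · rw [← Set.ncard_coe_finset]
        simpa using h3
      · intro k
        by_cases hk : sub θ k ∈ D
        · simp [hk]
        · simp only [Finset.mem_filter, Finset.mem_univ, true_and, hk, if_false]
          exact (h2 k).resolve_left hk
    · rintro ⟨T, hT, h1, h2⟩
      refine ⟨h1, ?_, ?_⟩
      · intro k
        have := h2 k
        split_ifs at this
        · exact Or.inl this
        · exact Or.inr this
      · have : {k | sub θ k ∈ D} = (T : Set (Fin 5)) := by
          ext k
          have := h2 k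
          simp only [Set.mem_ofPred_eq, Finset.mem_coe]
          constructor
          · intro hk
            by_contra hkT
            rw [if_neg hkT] at this
            exact Set.disjoint_left.mp hdisj hk this
          · intro hk
            rwa [if_pos hk] at this
        rw [this, Set.ncard_coe_finset]; exact hT
  have hQ : ∀ (T : Finset (Fin 5)) (k : Fin 5), MeasurableSet (if k ∈ T then D else N) := by
    intro T k; split_ifs <;> assumption
  rw [hset, measureReal_biUnion_finset]
  · have : ∀ T : Finset (Fin 5), nu.real {θ | θ [] ∈ B ∧ ∀ k, sub θ k ∈ (if k ∈ T then D else N)} =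
        (volume : Measure unitInterval).real B *
          ∏ k, (if k ∈ T then nu.real D else nu.real N) := by
      intro T
      rw [nu_box_real B hB _ (hQ T)]
      congr 1
      apply Finset.prod_congr rfl
      intro k _
      split_ifs <;> rfl
    simp only [this]
    rw [← Finset.mul_sum, sum_ite_card]
  · intro T _ T' _ hTT'
    rw [Function.onFun, Set.disjoint_left]
    rintro θ ⟨_, h1⟩ ⟨_, h2⟩
    apply hTT'
    ext k
    have e1 := h1 k
    have e2 := h2 k
    constructor
    · intro hk
      by_contra hk'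
      rw [if_pos hk] at e1
      rw [if_neg hk'] at e2
      exact Set.disjoint_left.mp hdisj e1 e2
    · intro hk
      by_contra hk'
      rw [if_neg hk'] at e1
      rw [if_pos hk] at e2
      exact Set.disjoint_left.mp hdisj e2 e1
  · intro T _
    apply MeasurableSet.inter (measurable_root hB)
    have : {θ : Theta | ∀ k, sub θ k ∈ (if k ∈ T then D else N)} =
        ⋂ k, {θ | sub θ k ∈ (if k ∈ T then D else N)} := by ext; simp
    change MeasurableSet {θ : Theta | ∀ k, sub θ k ∈ (if k ∈ T then D else N)}
    rw [this]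
    exact MeasurableSet.iInter (fun k => measurable_sub k (hQ T k))

/-- At most two children in `D`. -/
lemma nu_le_two (B : Set unitInterval) (hB : MeasurableSet B) (D : Set Theta)
    (hD : MeasurableSet D) :
    nu.real {θ | θ [] ∈ B ∧ {k | sub θ k ∈ D}.ncard ≤ 2} =
      (volume : Measure unitInterval).real B * H (1 - nu.real Dᶜ) (nu.real Dᶜ) := by
  have h := nu_count B hB D Dᶜ hD hD.compl disjoint_compl_right
  have e : nu.real D = 1 - nu.real Dᶜ := by
    rw [probReal_compl_eq_one_sub hD]; ring
  rw [← e, ← h]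
  congr 1
  ext θ
  simp

/-- At most two children in `D`, and a child in the smaller set `A`. -/
lemma nu_exists_mem (B : Set unitInterval) (hB : MeasurableSet B) (A D : Set Theta)
    (hA : MeasurableSet A) (hD : MeasurableSet D) (hAD : A ⊆ D) :
    nu.real {θ | θ [] ∈ B ∧ (∃ k, sub θ k ∈ A) ∧ {k | sub θ k ∈ D}.ncard ≤ 2} =
      (volume : Measure unitInterval).real B *
        (5 * nu.real A * (nu.real Dᶜ) ^ 3 * (4 - 3 * nu.real Dᶜ - 2 * nu.real A)) := by
  have h1 := nu_le_two B hB D hD
  have h2 := nu_count B hB (D \ A) Dᶜ (hD.diff hA) hD.compl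
    (disjoint_compl_right.mono_left Set.sdiff_subset)
  have hDr : nu.real D = 1 - nu.real Dᶜ := by
    rw [probReal_compl_eq_one_sub hD]; ring
  have hDA : nu.real (D \ A) = 1 - nu.real Dᶜ - nu.real A := by
    rw [measureReal_sdiff hAD hA, hDr]
  rw [hDA] at h2
  set S1 := {θ : Theta | θ [] ∈ B ∧ {k | sub θ k ∈ D}.ncard ≤ 2} with hS1
  set S2 := {θ : Theta | θ [] ∈ B ∧ (∀ k, sub θ k ∈ D \ A ∪ Dᶜ) ∧
    {k | sub θ k ∈ D \ A}.ncard ≤ 2} with hS2
  have hall : ∀ θ : Theta, (∀ k, sub θ k ∈ D \ A ∪ Dᶜ) ↔ ¬ ∃ k, sub θ k ∈ A := by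
    intro θ
    rw [not_exists]
    apply forall_congr'
    intro k
    constructor
    · rintro (⟨_, h⟩ | h) hA'
      · exact h hA'
      · exact h (hAD hA')
    · intro h
      by_cases hk : sub θ k ∈ D
      · exact Or.inl ⟨hk, h⟩
      · exact Or.inr hk
  have hcard : ∀ θ : Theta, (¬ ∃ k, sub θ k ∈ A) →
      {k | sub θ k ∈ D \ A} = {k | sub θ k ∈ D} := by
    intro θ h
    rw [not_exists] at h
    ext k
    exact ⟨fun hk => hk.1, fun hk => ⟨hk, h k⟩⟩
  have hset : {θ : Theta | θ [] ∈ B ∧ (∃ k, sub θ k ∈ A) ∧ {k | sub θ k ∈ D}.ncard ≤ 2} =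
      S1 \ S2 := by
    ext θ
    simp only [hS1, hS2, Set.mem_ofPred_eq, Set.mem_sdiff, hall]
    constructor
    · rintro ⟨h1, h2, h3⟩
      exact ⟨⟨h1, h3⟩, fun h => h.2.1 h2⟩
    · rintro ⟨⟨h1, h3⟩, h⟩
      refine ⟨h1, ?_, h3⟩
      by_contra hne
      refine h ⟨h1, hne, ?_⟩
      have := hcard θ hne
      simp only [Set.mem_sdiff] at this
      rw [this]; exact h3
  have hsub : S2 ⊆ S1 := by
    rintro θ ⟨h1, h2, h3⟩
    exact ⟨h1, by rw [← hcard θ ((hall θ).mp h2)]; exact h3⟩
  have hm2 : MeasurableSet S2 := by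
    apply MeasurableSet.inter (measurable_root hB)
    apply MeasurableSet.inter
    · change MeasurableSet {θ : Theta | ∀ k, sub θ k ∈ D \ A ∪ Dᶜ}
      have : {θ : Theta | ∀ k, sub θ k ∈ D \ A ∪ Dᶜ} = ⋂ k, {θ | sub θ k ∈ D \ A ∪ Dᶜ} := by
        ext; simp
      rw [this]
      exact MeasurableSet.iInter (fun k => measurable_sub k ((hD.diff hA).union hD.compl))
    · exact measurableSet_types (D \ A) (hD.diff hA) {T | T.ncard ≤ 2}
  rw [hset, measureReal_sdiff hsub hm2, h1, h2]
  simp only [H]
  ring

/-- At most two children in `D`, and a child in `E`. -/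
lemma nu_exists_le (B : Set unitInterval) (hB : MeasurableSet B) (E D : Set Theta)
    (hE : MeasurableSet E) (hD : MeasurableSet D) :
    nu.real {θ | θ [] ∈ B ∧ (∃ k, sub θ k ∈ E) ∧ {k | sub θ k ∈ D}.ncard ≤ 2} ≤
      (volume : Measure unitInterval).real B * (5 * nu.real E) ∧
    nu.real {θ | θ [] ∈ B ∧ (∃ k, sub θ k ∈ E) ∧ {k | sub θ k ∈ D}.ncard ≤ 2} ≤
      (volume : Measure unitInterval).real B * (30 * nu.real E * (nu.real Dᶜ) ^ 2) := by
  classical
  constructor
  · have hsub : {θ : Theta | θ [] ∈ B ∧ (∃ k, sub θ k ∈ E) ∧ {k | sub θ k ∈ D}.ncard ≤ 2} ⊆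
        ⋃ k ∈ (Finset.univ : Finset (Fin 5)),
          {θ | θ [] ∈ B ∧ ∀ i, sub θ i ∈ (if i = k then E else Set.univ)} := by
      rintro θ ⟨h1, ⟨k, hk⟩, _⟩
      simp only [Finset.mem_univ, Set.iUnion_true, Set.mem_iUnion]
      refine ⟨k, h1, fun i => ?_⟩
      split_ifs with h
      · rw [h]; exact hk
      · exact Set.mem_univ _
    refine (measureReal_mono hsub (measure_ne_top _ _)).trans
      ((measureReal_biUnion_finset_le _ _).trans ?_)
    have : ∀ k : Fin 5, nu.real {θ | θ [] ∈ B ∧ ∀ i, sub θ i ∈ (if i = k then E else Set.univ)} =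
        (volume : Measure unitInterval).real B * nu.real E := by
      intro k
      rw [nu_box_real B hB _ (fun i => by split_ifs; exacts [hE, MeasurableSet.univ])]
      congr 1
      rw [Finset.prod_eq_single k]
      · simp
      · intro i _ hi; simp [hi]
      · simp
    simp only [this, Finset.sum_const, Finset.card_univ, Fintype.card_fin]
    apply le_of_eq
    simp only [nsmul_eq_mul, Nat.cast_ofNat]
    ring
  · let I : Finset (Fin 5 × Fin 5 × Fin 5) :=
      Finset.univ.filter (fun p => p.2.1 < p.2.2 ∧ p.1 ≠ p.2.1 ∧ p.1 ≠ p.2.2)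
    have hI : I.card = 30 := by decide
    have hsub : {θ : Theta | θ [] ∈ B ∧ (∃ k, sub θ k ∈ E) ∧ {k | sub θ k ∈ D}.ncard ≤ 2} ⊆
        ⋃ p ∈ I, {θ | θ [] ∈ B ∧ ∀ i, sub θ i ∈
          (if i = p.1 then E else if i = p.2.1 ∨ i = p.2.2 then Dᶜ else Set.univ)} := by
      rintro θ ⟨h1, ⟨k, hk⟩, h3⟩
      -- the set of other indices not in `D` has at least two elements
      set U : Finset (Fin 5) := Finset.univ.filter (fun i => sub θ i ∉ D ∧ i ≠ k) with hU
      have hc : 1 < U.card := by
        have e1 : (Finset.univ.filter (fun i => sub θ i ∈ D)).card ≤ 2 := by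
          rw [← Set.ncard_coe_finset]; simpa using h3
        have e2 : (Finset.univ : Finset (Fin 5)) ⊆
            Finset.univ.filter (fun i => sub θ i ∈ D) ∪ (U ∪ {k}) := by
          intro i _
          simp only [hU, Finset.mem_union, Finset.mem_filter, Finset.mem_univ, true_and,
            Finset.mem_singleton]
          tauto
        have e3 := Finset.card_le_card e2
        have e4 := Finset.card_union_le (Finset.univ.filter (fun i => sub θ i ∈ D)) (U ∪ {k})
        have e5 := Finset.card_union_le U {k}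
        simp only [Finset.card_univ, Fintype.card_fin, Finset.card_singleton] at e3 e5
        omega
      obtain ⟨a, ha, b, hb, hab⟩ := Finset.one_lt_card.mp hc
      simp only [hU, Finset.mem_filter, Finset.mem_univ, true_and] at ha hb
      have main : ∀ x y : Fin 5, x < y → sub θ x ∉ D → x ≠ k → sub θ y ∉ D → y ≠ k →
          θ ∈ ⋃ p ∈ I, {θ | θ [] ∈ B ∧ ∀ i, sub θ i ∈
          (if i = p.1 then E else if i = p.2.1 ∨ i = p.2.2 then Dᶜ else Set.univ)} := by
        intro x y hxy hx hxk hy hyk
        simp only [Set.mem_iUnion, exists_prop]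
        refine ⟨(k, x, y), ?_, h1, ?_⟩
        · simp only [I, Finset.mem_filter, Finset.mem_univ, true_and]
          exact ⟨hxy, hxk.symm, hyk.symm⟩
        · intro i
          by_cases h : i = k
          · simp only [h, if_true]; exact hk
          · simp only [h, if_false]
            by_cases h' : i = x ∨ i = y
            · rw [if_pos h']
              rcases h' with rfl | rfl
              · exact hx
              · exact hy
            · rw [if_neg h']; exact Set.mem_univ _
      rcases lt_or_gt_of_ne hab with h | h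
      · exact main a b h ha.1 ha.2 hb.1 hb.2
      · exact main b a h hb.1 hb.2 ha.1 ha.2
    refine (measureReal_mono hsub (measure_ne_top _ _)).trans
      ((measureReal_biUnion_finset_le _ _).trans ?_)
    have : ∀ p ∈ I, nu.real {θ | θ [] ∈ B ∧ ∀ i, sub θ i ∈
          (if i = p.1 then E else if i = p.2.1 ∨ i = p.2.2 then Dᶜ else Set.univ)} =
        (volume : Measure unitInterval).real B * (nu.real E * (nu.real Dᶜ) ^ 2) := by
      rintro ⟨k, x, y⟩ hp
      simp only [I, Finset.mem_filter, Finset.mem_univ, true_and] at hp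
      obtain ⟨hxy, hkx, hky⟩ := hp
      rw [nu_box_real B hB _ (fun i => by
        split_ifs; exacts [hE, hD.compl, MeasurableSet.univ])]
      congr 1
      have hprod : ∀ f : Fin 5 → ℝ, (∀ i, i ≠ k → i ≠ x → i ≠ y → f i = 1) →
          ∏ i, f i = f k * f x * f y := by
        intro f hf
        rw [← Finset.prod_subset (Finset.subset_univ ({k, x, y} : Finset (Fin 5)))]
        · rw [Finset.prod_insert (by simp [hkx, hky]), Finset.prod_insert (by
            simp [hxy.ne]), Finset.prod_singleton]
          ring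
        · intro i _ hi
          simp only [Finset.mem_insert, Finset.mem_singleton, not_or] at hi
          exact hf i hi.1 hi.2.1 hi.2.2
      rw [hprod]
      · simp only [if_true, hkx.symm, hky.symm, if_false, true_or, or_true]
        ring
      · intro i h1 h2 h3
        simp [h1, h2, h3]
    rw [Finset.sum_congr rfl this]
    simp only [Finset.sum_const, hI]
    apply le_of_eq
    simp only [nsmul_eq_mul, Nat.cast_ofNat]
    ring

end Pool.Agent.Lib.MP_e8140e_co
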