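import Mathlib

/-!
# Uniform local algorithms on a graph with independent uniform labels
-/

set_option autoImplicit false

open MeasureTheory

namespace Pool.Agent.Lib.MP_e8140e_co

variable {V : Type*}

/-- The ball of radius `r` around `v` in the graph distance: all endpoints of walks of length at
most `r` that start in `v`. -/
def ball (G : SimpleGraph V) (v : V) (r : ℕ) : Set V := {x | ∃ p : G.Walk v x, p.length ≤ r}

/-- The map `φ` is an isomorphism from the ball of radius `r` around `v`, rooted at `v` and
labelled by `ω`, to the ball of radius `r` around `v'`, rooted at `v'` and labelled by `ω'`. -/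
structure BallIso (G : SimpleGraph V) (v v' : V) (r : ℕ) (ω ω' : V → unitInterval) (φ : V → V) :
    Prop where
  root : φ v = v'
  bij : Set.BijOn φ (ball G v r) (ball G v' r)
  adj : ∀ x ∈ ball G v r, ∀ y ∈ ball G v r, (G.Adj (φ x) (φ y) ↔ G.Adj x y)
  label : ∀ x ∈ ball G v r, ω' (φ x) = ω x

/-- A uniform local algorithm with outputs in `C`.  A vertex `v` inspects the labelled balls
around itself of radius `r = 0, 1, 2, …`; `rule v r ω = none` means that it does not stop at
radius `r`, and `rule v r ω = some c` means that it stops with output `c` (if it has not stopped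
before).  The rule is measurable, and it depends only on the isomorphism class of the rooted
labelled ball of radius `r` around `v` (in particular all vertices use the same rule). -/
structure UniformLocalAlgorithm (G : SimpleGraph V) (C : Type*) where
  rule : V → ℕ → (V → unitInterval) → Option C
  measurable_rule : ∀ (v : V) (r : ℕ) (c : Option C), MeasurableSet {ω | rule v r ω = c}
  invariant_rule : ∀ (v v' : V) (r : ℕ) (ω ω' : V → unitInterval) (φ : V → V),
    BallIso G v v' r ω ω' φ → rule v r ω = rule v' r ω'

namespace UniformLocalAlgorithm

variable {G : SimpleGraph V} {C : Type*}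

/-- The coding radius of `v`: the first radius at which `v` stops (infinite if it never stops). -/
noncomputable def radius (A : UniformLocalAlgorithm G C) (v : V) (ω : V → unitInterval) : ℕ∞ :=
  ⨅ r ∈ {r : ℕ | A.rule v r ω ≠ none}, (r : ℕ∞)

/-- The vertex `v` stops and outputs `c`. -/
def Outputs (A : UniformLocalAlgorithm G C) (v : V) (ω : V → unitInterval) (c : C) : Prop :=
  ∃ r : ℕ, A.rule v r ω = some c ∧ ∀ s < r, A.rule v s ω = none

end UniformLocalAlgorithm

/-- The law of the labels: independent and uniform on the unit interval. -/
noncomputable def labelMeasure (V : Type*) : Measure (V → unitInterval) :=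
  Measure.infinitePi (fun _ : V => (volume : Measure unitInterval))

instance (V : Type*) : IsProbabilityMeasure (labelMeasure V) := by
  unfold labelMeasure; infer_instance

/-- The algorithm has uniform complexity `t`. -/
def UniformComplexity {G : SimpleGraph V} {C : Type*} (A : UniformLocalAlgorithm G C)
    (t : ℝ → ℕ) : Prop :=
  ∀ (v : V) (ε : ℝ), 0 < ε →
    labelMeasure V {ω | (t ε : ℕ∞) < A.radius v ω} ≤ ENNReal.ofReal ε

end Pool.Agent.Lib.MP_e8140e_co
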