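import Pool.Agent.Lib.MP_e8140e_co.Defs
import Pool.Agent.Lib.MP_e8140e_co.Algo

/-!
# Locality and measurability of the processes
-/

set_option autoImplicit false

open MeasureTheory

namespace Pool.Agent.Lib.MP_e8140e_co

variable {V : Type*} {G : SimpleGraph V}

lemma mem_ball_self (v : V) (r : ℕ) : v ∈ ball G v r :=
  ⟨SimpleGraph.Walk.nil, by simp⟩

lemma ball_mono {v : V} {r s : ℕ} (h : r ≤ s) : ball G v r ⊆ ball G v s := by
  rintro x ⟨p, hp⟩; exact ⟨p, hp.trans h⟩

lemma ball_nbr {v u : V} (h : G.Adj v u) (r : ℕ) : ball G u r ⊆ ball G v (r + 1) := by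
  rintro x ⟨p, hp⟩
  exact ⟨SimpleGraph.Walk.cons h p, by simp; omega⟩

lemma mem_ball_of_adj {v u : V} (h : G.Adj v u) {r : ℕ} (hr : 1 ≤ r) : u ∈ ball G v r :=
  ⟨SimpleGraph.Walk.cons h SimpleGraph.Walk.nil, by simpa using hr⟩

section

variable {v v' : V} {r : ℕ} {ω ω' : V → unitInterval} {φ : V → V}

/-- Walks that stay in the ball are mapped to walks. -/
lemma BallIso.map_walk (h : BallIso G v v' r ω ω' φ) :
    ∀ {a b : V} (p : G.Walk a b), (∃ q : G.Walk v a, q.length + p.length ≤ r) →
      ∃ p' : G.Walk (φ a) (φ b), p'.length = p.length := by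
  intro a b p
  induction p with
  | nil => intro _; exact ⟨SimpleGraph.Walk.nil, rfl⟩
  | @cons a c b hac p ih =>
    rintro ⟨q, hq⟩
    simp only [SimpleGraph.Walk.length_cons] at hq
    obtain ⟨p', hp'⟩ := ih ⟨q.concat hac, by simp; omega⟩
    have ha : a ∈ ball G v r := ⟨q, by omega⟩
    have hc : c ∈ ball G v r := ⟨q.concat hac, by simp; omega⟩
    exact ⟨SimpleGraph.Walk.cons ((h.adj a ha c hc).mpr hac) p', by simp [hp']⟩

/-- Walks in the target ball come from walks in the source ball. -/
lemma BallIso.lift_walk (h : BallIso G v v' r ω ω' φ) :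
    ∀ {a' y : V} (p' : G.Walk a' y) (a : V), φ a = a' → a ∈ ball G v r →
      (∃ q' : G.Walk v' a', q'.length + p'.length ≤ r) →
      ∃ (x : V) (p : G.Walk a x), φ x = y ∧ x ∈ ball G v r ∧ p.length = p'.length := by
  intro a' y p'
  induction p' with
  | nil => intro a ha hab _; exact ⟨a, SimpleGraph.Walk.nil, ha, hab, rfl⟩
  | @cons a' c' y hac p' ih =>
    rintro a ha hab ⟨q', hq'⟩
    simp only [SimpleGraph.Walk.length_cons] at hq'
    have hc' : c' ∈ ball G v' r := ⟨q'.concat hac, by simp; omega⟩
    obtain ⟨c, hc, hcc⟩ := h.bij.surjOn hc'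
    obtain ⟨x, p, hx, hxb, hp⟩ := ih c hcc hc ⟨q'.concat hac, by simp; omega⟩
    have hadj : G.Adj a c := by
      rw [← h.adj a hab c hc, ha, hcc]; exact hac
    exact ⟨x, SimpleGraph.Walk.cons hadj p, hx, hxb, by simp [hp]⟩

lemma BallIso.mono {s : ℕ} (h : BallIso G v v' r ω ω' φ) (hs : s ≤ r) :
    BallIso G v v' s ω ω' φ where
  root := h.root
  bij := by
    refine ⟨?_, h.bij.injOn.mono (ball_mono hs), ?_⟩
    · rintro x ⟨p, hp⟩
      obtain ⟨p', hp'⟩ := h.map_walk p ⟨SimpleGraph.Walk.nil, by simp; omega⟩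
      exact ⟨p'.copy h.root rfl, by simp [hp', hp]⟩
    · rintro y ⟨p', hp'⟩
      obtain ⟨x, p, hx, _, hp⟩ := h.lift_walk p' v h.root (mem_ball_self _ _)
        ⟨SimpleGraph.Walk.nil, by simp; omega⟩
      exact ⟨x, ⟨p, by omega⟩, hx⟩
  adj := fun x hx y hy => h.adj x (ball_mono hs hx) y (ball_mono hs hy)
  label := fun x hx => h.label x (ball_mono hs hx)

lemma BallIso.adj_root (h : BallIso G v v' r ω ω' φ) (hr : 1 ≤ r) {u : V} (hu : G.Adj v u) :
    G.Adj v' (φ u) := by
  have := (h.adj v (mem_ball_self _ _) u (mem_ball_of_adj hu hr)).mpr hu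
  rwa [h.root] at this

lemma BallIso.exists_nbr (h : BallIso G v v' r ω ω' φ) (hr : 1 ≤ r) {u' : V}
    (hu : G.Adj v' u') : ∃ u, G.Adj v u ∧ φ u = u' := by
  obtain ⟨u, hub, rfl⟩ := h.bij.surjOn (mem_ball_of_adj hu hr)
  refine ⟨u, ?_, rfl⟩
  rw [← h.adj v (mem_ball_self _ _) u hub, h.root]; exact hu

lemma BallIso.nbr (h : BallIso G v v' (r + 1) ω ω' φ) {u : V} (hu : G.Adj v u) :
    BallIso G u (φ u) r ω ω' φ where
  root := rfl
  bij := by
    refine ⟨?_, h.bij.injOn.mono (ball_nbr hu r), ?_⟩
    · rintro x ⟨p, hp⟩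
      obtain ⟨p', hp'⟩ := h.map_walk p ⟨SimpleGraph.Walk.cons hu SimpleGraph.Walk.nil, by
        simp; omega⟩
      exact ⟨p', by omega⟩
    · rintro y ⟨p', hp'⟩
      have hadj := h.adj_root (by omega) hu
      obtain ⟨x, p, hx, _, hp⟩ := h.lift_walk p' u rfl (mem_ball_of_adj hu (by omega))
        ⟨SimpleGraph.Walk.cons hadj SimpleGraph.Walk.nil, by simp; omega⟩
      exact ⟨x, ⟨p, by omega⟩, hx⟩
  adj := fun x hx y hy => h.adj x (ball_nbr hu r hx) y (ball_nbr hu r hy)
  label := fun x hx => h.label x (ball_nbr hu r hx)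

lemma BallIso.label_root (h : BallIso G v v' r ω ω' φ) : ω' v' = ω v := by
  have := h.label v (mem_ball_self _ _)
  rwa [h.root] at this

/-- Counting neighbours with a property. -/
lemma BallIso.ncard_nbr (h : BallIso G v v' (r + 1) ω ω' φ) {P P' : V → Prop}
    (hP : ∀ u, G.Adj v u → (P u ↔ P' (φ u))) :
    {u | G.Adj v u ∧ P u}.ncard = {u | G.Adj v' u ∧ P' u}.ncard := by
  apply Set.ncard_congr (fun u _ => φ u)
  · rintro u ⟨hu, hPu⟩
    exact ⟨h.adj_root (by omega) hu, (hP u hu).mp hPu⟩
  · rintro a b ⟨ha, _⟩ ⟨hb, _⟩ hab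
    exact h.bij.injOn (mem_ball_of_adj ha (by omega)) (mem_ball_of_adj hb (by omega)) hab
  · rintro u' ⟨hu', hPu'⟩
    obtain ⟨u, hu, rfl⟩ := h.exists_nbr (by omega) hu'
    exact ⟨u, ⟨hu, (hP u hu).mpr hPu'⟩, rfl⟩

end

variable {K : ℕ} {ω ω' : V → unitInterval} {φ : V → V}

lemma inS_local (j : ℕ) : ∀ {v v' : V} {r : ℕ}, j ≤ r → BallIso G v v' r ω ω' φ →
    (inS G K ω j v ↔ inS G K ω' j v') := by
  induction j with
  | zero => intro v v' r _ _; exact Iff.rfl
  | succ j ih =>
    intro v v' r hr h
    have h' : BallIso G v v' (j + 1) ω ω' φ := h.mono hr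
    have e1 := ih (by omega) h
    have e2 : ∀ u, G.Adj v u → (inS G K ω j u ↔ inS G K ω' j (φ u)) := fun u hu =>
      ih le_rfl (h'.nbr hu)
    have e3 : ∀ u, G.Adj v u → ω' (φ u) = ω u := fun u hu => (h'.nbr hu).label_root
    simp only [inS, e1, h.label_root]
    refine or_congr Iff.rfl (and_congr Iff.rfl ⟨?_, ?_⟩)
    · intro hall u' hu'
      obtain ⟨u, hu, rfl⟩ := h'.exists_nbr (by omega) hu'
      rw [e3 u hu, ← e2 u hu]; exact hall u hu
    · intro hall u hu
      have := hall (φ u) (h'.adj_root (by omega) hu)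
      rw [e3 u hu, ← e2 u hu] at this; exact this

lemma done_local (l : ℕ) : ∀ {v v' : V} {r : ℕ}, K - 1 + l ≤ r → BallIso G v v' r ω ω' φ →
    (done G K ω l v ↔ done G K ω' l v') := by
  induction l with
  | zero => intro v v' r hr h; exact inS_local _ (by omega) h
  | succ l ih =>
    intro v v' r hr h
    have h' : BallIso G v v' (K - 1 + l + 1) ω ω' φ := h.mono (by omega)
    have e1 := ih (by omega) h
    have e2 : ∀ u, G.Adj v u → (done G K ω l u ↔ done G K ω' l (φ u)) := fun u hu =>
      ih le_rfl (h'.nbr hu)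
    simp only [done, e1, h'.ncard_nbr e2]

lemma later_local {t : ℕ} {u v u' v' : V} (hu : ∀ l ≤ t, (done G K ω l u ↔ done G K ω' l u'))
    (hv : ∀ l ≤ t, (done G K ω l v ↔ done G K ω' l v')) (hωu : ω' u' = ω u)
    (hωv : ω' v' = ω v) : later G K ω t u v ↔ later G K ω' t u' v' := by
  unfold later
  rw [hωu, hωv]
  refine or_congr ⟨?_, ?_⟩ (and_congr ⟨?_, ?_⟩ Iff.rfl)
  · rintro ⟨l, hl, h1, h2⟩
    exact ⟨l, hl, (hu l hl.le).mp h1, fun h => h2 ((hv l hl.le).mpr h)⟩
  · rintro ⟨l, hl, h1, h2⟩
    exact ⟨l, hl, (hu l hl.le).mpr h1, fun h => h2 ((hv l hl.le).mp h)⟩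
  · intro h l hl
    rw [← hu l hl, ← hv l hl]; exact h l hl
  · intro h l hl
    rw [hu l hl, hv l hl]; exact h l hl

lemma col_local (t : ℕ) : ∀ {v v' : V} {r : ℕ}, K - 1 + t ≤ r → BallIso G v v' r ω ω' φ →
    col G K ω t v = col G K ω' t v' := by
  classical
  induction t with
  | zero =>
    intro v v' r hr h
    have := done_local (K := K) 0 (by omega) h
    simp only [col, this]
  | succ t ih =>
    intro v v' r hr h
    have h' : BallIso G v v' (K - 1 + t + 1) ω ω' φ := h.mono (by omega)
    have e1 := ih (by omega) h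
    have e2 : ∀ u, G.Adj v u → (col G K ω t u = col G K ω' t (φ u)) := fun u hu =>
      ih le_rfl (h'.nbr hu)
    have e3 : ∀ u, G.Adj v u → ∀ l ≤ t, (done G K ω l u ↔ done G K ω' l (φ u)) :=
      fun u hu l hl => done_local l (by omega) (h'.nbr hu)
    have e4 : ∀ l ≤ t, (done G K ω l v ↔ done G K ω' l v') :=
      fun l hl => done_local l (by omega) h'
    have e5 : ∀ u, G.Adj v u → ω' (φ u) = ω u := fun u hu => (h'.nbr hu).label_root
    have e6 : (∀ u, G.Adj v u → ¬ done G K ω 0 u → later G K ω t u v ∨ col G K ω t u ≠ none) ↔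
        (∀ u, G.Adj v' u → ¬ done G K ω' 0 u → later G K ω' t u v' ∨ col G K ω' t u ≠ none) := by
      constructor
      · intro hall u' hu' h0
        obtain ⟨u, hu, rfl⟩ := h'.exists_nbr (by omega) hu'
        rw [← e2 u hu, ← later_local (e3 u hu) e4 (e5 u hu) h.label_root]
        exact hall u hu (fun hh => h0 ((e3 u hu 0 (Nat.zero_le _)).mp hh))
      · intro hall u hu h0
        have := hall (φ u) (h'.adj_root (by omega) hu)
          (fun hh => h0 ((e3 u hu 0 (Nat.zero_le _)).mpr hh))
        rw [← e2 u hu, ← later_local (e3 u hu) e4 (e5 u hu) h.label_root] at this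
        exact this
    have e7 : ∀ c : Fin 5, (∀ u, G.Adj v u → col G K ω t u ≠ some c) ↔
        (∀ u, G.Adj v' u → col G K ω' t u ≠ some c) := by
      intro c
      constructor
      · intro hall u' hu'
        obtain ⟨u, hu, rfl⟩ := h'.exists_nbr (by omega) hu'
        rw [← e2 u hu]; exact hall u hu
      · intro hall u hu
        rw [e2 u hu]; exact hall _ (h'.adj_root (by omega) hu)
    simp only [col, e1, e4 t le_rfl, e6, e7]

/-! ### Measurability -/

lemma measurableSet_lev (v : V) (j : ℕ) :
    MeasurableSet {ω : V → unitInterval | lev K (ω v) = j} := by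
  have : Measurable (fun ω : V → unitInterval => lev K (ω v)) := by
    unfold lev
    apply Nat.measurable_floor.comp
    exact measurable_const.mul (measurable_subtype_coe.comp (measurable_pi_apply v))
  exact this (measurableSet_singleton j)

lemma measurableSet_inS (hfin : ∀ v, {u | G.Adj v u}.Finite) (j : ℕ) : ∀ v,
    MeasurableSet {ω : V → unitInterval | inS G K ω j v} := by
  induction j with
  | zero => intro v; simp only [inS]; exact MeasurableSet.const _
  | succ j ih =>
    intro v
    simp only [inS]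
    apply MeasurableSet.union (ih v)
    apply MeasurableSet.inter (measurableSet_lev v j)
    have : {ω : V → unitInterval | ∀ u, G.Adj v u → lev K (ω u) ≠ j ∧ ¬ inS G K ω j u} =
        ⋂ u ∈ {u | G.Adj v u}, {ω | lev K (ω u) ≠ j ∧ ¬ inS G K ω j u} := by
      ext ω; simp
    change MeasurableSet {ω : V → unitInterval | ∀ u, G.Adj v u → lev K (ω u) ≠ j ∧
      ¬ inS G K ω j u}
    rw [this]
    apply (hfin v).measurableSet_biInter
    intro u _
    exact (measurableSet_lev u j).compl.inter (ih u).compl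

lemma measurableSet_ncard {P : V → Set (V → unitInterval)} (hP : ∀ u, MeasurableSet (P u))
    {v : V} (hfin : {u | G.Adj v u}.Finite) (m : ℕ) :
    MeasurableSet {ω : V → unitInterval | m ≤ {u | G.Adj v u ∧ ω ∈ P u}.ncard} := by
  have : {ω : V → unitInterval | m ≤ {u | G.Adj v u ∧ ω ∈ P u}.ncard} =
      ⋃ T ∈ {T : Set V | T ⊆ {u | G.Adj v u} ∧ m ≤ T.ncard}, ⋂ u ∈ T, P u := by
    ext ω
    simp only [Set.mem_ofPred_eq, Set.mem_iUnion, Set.mem_iInter, exists_prop]
    constructor
    · intro h
      exact ⟨{u | G.Adj v u ∧ ω ∈ P u}, ⟨fun u hu => hu.1, h⟩, fun u hu => hu.2⟩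
    · rintro ⟨T, ⟨hT, hm⟩, hall⟩
      refine hm.trans (Set.ncard_le_ncard (fun u hu => ⟨hT hu, hall u hu⟩)
        (hfin.subset (fun u hu => hu.1)))
  rw [this]
  have hfT : {T : Set V | T ⊆ {u | G.Adj v u} ∧ m ≤ T.ncard}.Finite :=
    hfin.finite_subsets.subset (fun T hT => hT.1)
  apply hfT.measurableSet_biUnion
  intro T hT
  apply (hfin.subset hT.1).measurableSet_biInter
  intro u _
  exact hP u

lemma measurableSet_done (hfin : ∀ v, {u | G.Adj v u}.Finite) (l : ℕ) : ∀ v,
    MeasurableSet {ω : V → unitInterval | done G K ω l v} := by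
  induction l with
  | zero => intro v; exact measurableSet_inS hfin _ v
  | succ l ih =>
    intro v
    simp only [done]
    apply MeasurableSet.union (ih v)
    exact measurableSet_ncard (P := fun u => {ω | done G K ω l u}) ih (hfin v) 3

lemma measurableSet_later (hfin : ∀ v, {u | G.Adj v u}.Finite) (t : ℕ) (u v : V) :
    MeasurableSet {ω : V → unitInterval | later G K ω t u v} := by
  unfold later
  apply MeasurableSet.union
  · have : {ω : V → unitInterval | ∃ l < t, done G K ω l u ∧ ¬ done G K ω l v} =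
        ⋃ l ∈ {l | l < t}, {ω | done G K ω l u ∧ ¬ done G K ω l v} := by
      ext ω; simp only [Set.mem_iUnion, Set.mem_ofPred_eq, exists_prop]
    change MeasurableSet {ω : V → unitInterval | ∃ l < t, done G K ω l u ∧ ¬ done G K ω l v}
    rw [this]
    apply (Set.finite_lt_nat t).measurableSet_biUnion
    intro l _
    exact (measurableSet_done hfin l u).inter (measurableSet_done hfin l v).compl
  · apply MeasurableSet.inter
    · have : {ω : V → unitInterval | ∀ l ≤ t, (done G K ω l u ↔ done G K ω l v)} =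
          ⋂ l ∈ {l | l ≤ t}, {ω | (done G K ω l u ↔ done G K ω l v)} := by
        ext ω; simp
      change MeasurableSet {ω : V → unitInterval | ∀ l ≤ t,
        (done G K ω l u ↔ done G K ω l v)}
      rw [this]
      apply (Set.finite_le_nat t).measurableSet_biInter
      intro l _
      exact MeasurableSet.iff (measurableSet_done hfin l u) (measurableSet_done hfin l v)
    · exact measurableSet_lt (measurable_subtype_coe.comp (measurable_pi_apply v))
        (measurable_subtype_coe.comp (measurable_pi_apply u))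

lemma measurableSet_ready (hfin : ∀ v, {u | G.Adj v u}.Finite) (t : ℕ) (v : V)
    (hcol : ∀ u (c : Option (Fin 5)), MeasurableSet {ω : V → unitInterval | col G K ω t u = c}) :
    MeasurableSet {ω : V → unitInterval | done G K ω t v ∧
      (∀ u, G.Adj v u → ¬ done G K ω 0 u → later G K ω t u v ∨ col G K ω t u ≠ none)} := by
  apply MeasurableSet.inter (measurableSet_done hfin t v)
  have : {ω : V → unitInterval | ∀ u, G.Adj v u → ¬ done G K ω 0 u →
      later G K ω t u v ∨ col G K ω t u ≠ none} = ⋂ u ∈ {u | G.Adj v u},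
        ({ω | done G K ω 0 u} ∪ ({ω | later G K ω t u v} ∪ {ω | col G K ω t u = none}ᶜ)) := by
    ext ω
    simp only [Set.mem_iInter, Set.mem_ofPred_eq, Set.mem_union, Set.mem_compl_iff]
    refine forall_congr' fun u => imp_congr Iff.rfl ?_
    tauto
  change MeasurableSet {ω : V → unitInterval | ∀ u, G.Adj v u → ¬ done G K ω 0 u →
      later G K ω t u v ∨ col G K ω t u ≠ none}
  rw [this]
  apply (hfin v).measurableSet_biInter
  intro u _
  exact (measurableSet_done hfin 0 u).union ((measurableSet_later hfin t u v).union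
    (hcol u none).compl)

lemma measurableSet_col (hfin : ∀ v, {u | G.Adj v u}.Finite) (t : ℕ) :
    ∀ v (c : Option (Fin 5)), MeasurableSet {ω : V → unitInterval | col G K ω t v = c} := by
  classical
  induction t with
  | zero =>
    intro v c
    have : {ω : V → unitInterval | col G K ω 0 v = c} =
        ({ω | done G K ω 0 v} ∩ {_ω | some 0 = c}) ∪
        ({ω | done G K ω 0 v}ᶜ ∩ {_ω | none = c}) := by
      ext ω
      by_cases h : done G K ω 0 v
      · simp [col, h]
      · simp [col, h]
    rw [this]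
    exact ((measurableSet_done hfin 0 v).inter (MeasurableSet.const _)).union
      ((measurableSet_done hfin 0 v).compl.inter (MeasurableSet.const _))
  | succ t ih =>
    intro v c
    -- the set of free colours
    have hfree : ∀ F : Set (Fin 5), MeasurableSet {ω : V → unitInterval |
        {c | ∀ u, G.Adj v u → col G K ω t u ≠ some c} = F} := by
      intro F
      have : {ω : V → unitInterval | {c | ∀ u, G.Adj v u → col G K ω t u ≠ some c} = F} =
          ⋂ c : Fin 5, {ω | (∀ u ∈ {u | G.Adj v u}, col G K ω t u ≠ some c) ↔ c ∈ F} := by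
        ext ω
        simp only [Set.mem_iInter, Set.mem_ofPred_eq, Set.ext_iff]
      rw [this]
      apply MeasurableSet.iInter
      intro c
      apply MeasurableSet.iff _ (MeasurableSet.const _)
      have : {ω : V → unitInterval | ∀ u ∈ {u | G.Adj v u}, col G K ω t u ≠ some c} =
          ⋂ u ∈ {u | G.Adj v u}, {ω | col G K ω t u = some c}ᶜ := by
        ext ω; simp
      rw [this]
      apply (hfin v).measurableSet_biInter
      intro u _
      exact (ih u (some c)).compl
    have hready := measurableSet_ready (K := K) hfin t v ih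
    have key : {ω : V → unitInterval | col G K ω (t + 1) v = c} =
        ({ω | col G K ω t v = none}ᶜ ∩ {ω | col G K ω t v = c}) ∪
        ({ω | col G K ω t v = none} ∩ ((({ω | done G K ω t v ∧ (∀ u, G.Adj v u →
            ¬ done G K ω 0 u → later G K ω t u v ∨ col G K ω t u ≠ none)}) ∩
          (⋃ F ∈ {F : Set (Fin 5) | (List.finRange 5).find? (fun c => decide (c ∈ F)) = c},
            {ω | {c | ∀ u, G.Adj v u → col G K ω t u ≠ some c} = F})) ∪
          (({ω | done G K ω t v ∧ (∀ u, G.Adj v u →
            ¬ done G K ω 0 u → later G K ω t u v ∨ col G K ω t u ≠ none)})ᶜ ∩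
            {_ω | none = c}))) := by
      ext ω
      simp only [Set.mem_union, Set.mem_inter_iff, Set.mem_compl_iff, Set.mem_ofPred_eq,
        Set.mem_iUnion, exists_prop]
      by_cases h1 : col G K ω t v = none
      · by_cases h2 : done G K ω t v ∧ (∀ u, G.Adj v u →
            ¬ done G K ω 0 u → later G K ω t u v ∨ col G K ω t u ≠ none)
        · have e : col G K ω (t + 1) v = (List.finRange 5).find?
              (fun c => decide (∀ u, G.Adj v u → col G K ω t u ≠ some c)) := by
            simp only [col, h1]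
            rw [if_neg (by simp), if_pos h2]
          rw [e]
          constructor
          · intro h
            refine Or.inr ⟨h1, Or.inl ⟨h2, _, ?_, rfl⟩⟩
            simpa using h
          · rintro (⟨h, _⟩ | ⟨_, ⟨_, F, hF, rfl⟩ | ⟨h, _⟩⟩)
            · exact absurd h1 h
            · simpa using hF
            · exact absurd h2 h
        · have e : col G K ω (t + 1) v = none := by
            simp only [col, h1]
            rw [if_neg (by simp), if_neg h2]
          rw [e]
          constructor
          · intro h; exact Or.inr ⟨h1, Or.inr ⟨h2, h⟩⟩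
          · rintro (⟨h, _⟩ | ⟨_, ⟨h, _⟩ | ⟨_, h⟩⟩)
            · exact absurd h1 h
            · exact absurd h h2
            · exact h
      · rw [col_succ_of_ne h1]
        constructor
        · intro h; exact Or.inl ⟨h1, h⟩
        · rintro (⟨_, h⟩ | ⟨h, _⟩)
          · exact h
          · exact absurd h h1
    rw [key]
    refine ((ih v none).compl.inter (ih v c)).union ((ih v none).inter
      ((hready.inter ?_).union (hready.compl.inter (MeasurableSet.const _))))
    apply (Set.toFinite _).measurableSet_biUnion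
    intro F _
    exact hfree F

end Pool.Agent.Lib.MP_e8140e_co
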