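import Pool.Agent.Lib.MP_e8140e_co.Bound

/-!
# The algorithm and its complexity
-/

set_option autoImplicit false

open MeasureTheory Asymptotics Filter Topology

namespace Pool.Agent.Lib.MP_e8140e_co

variable {V : Type*} {G : SimpleGraph V}

lemma countable_of_connected (hG : G.Connected) (hfin : ∀ v, {u | G.Adj v u}.Finite) :
    Countable V := by
  obtain ⟨v⟩ := hG.nonempty
  have hball : ∀ (r : ℕ) (v : V), {x | ∃ p : G.Walk v x, p.length = r}.Countable := by
    intro r
    induction r with
    | zero =>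
      intro v
      apply (Set.countable_singleton v).mono
      rintro x ⟨p, hp⟩
      exact (SimpleGraph.Walk.eq_of_length_eq_zero hp).symm
    | succ r ih =>
      intro v
      have hsub : {x | ∃ p : G.Walk v x, p.length = r + 1} ⊆
          ⋃ u ∈ {u | G.Adj v u}, {x | ∃ p : G.Walk u x, p.length = r} := by
        rintro x ⟨p, hp⟩
        cases p with
        | nil => simp at hp
        | @cons _ u _ h q =>
          simp only [Set.mem_iUnion, Set.mem_ofPred_eq, exists_prop]
          exact ⟨u, h, q, by simpa using hp⟩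
      exact ((hfin v).countable.biUnion (fun u _ => ih u)).mono hsub
  rw [← Set.countable_univ_iff]
  apply (Set.countable_iUnion (fun r => hball r v)).mono
  intro x _
  obtain ⟨p⟩ := hG.preconnected v x
  simp only [Set.mem_iUnion, Set.mem_ofPred_eq]
  exact ⟨p.length, p, rfl⟩

/-- The rule: at radius `63 + t` a vertex can simulate `t` rounds. -/
noncomputable def theRule (G : SimpleGraph V) (v : V) (r : ℕ) (ω : V → unitInterval) :
    Option (Fin 5) :=
  if r < 63 then none else col G 64 ω (r - 63) v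

lemma theRule_none_of_le {v : V} {r s : ℕ} {ω : V → unitInterval} (h : r ≤ s)
    (hs : theRule G v s ω = none) : theRule G v r ω = none := by
  unfold theRule at *
  by_cases hr : r < 63
  · rw [if_pos hr]
  · rw [if_neg hr]
    rw [if_neg (by omega)] at hs
    exact col_none_of_le (by omega) hs

/-- The algorithm. -/
noncomputable def theAlg (G : SimpleGraph V) (hfin : ∀ v, {u | G.Adj v u}.Finite) :
    UniformLocalAlgorithm G (Fin 5) where
  rule := theRule G
  measurable_rule := by
    intro v r c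
    unfold theRule
    by_cases hr : r < 63
    · simp only [if_pos hr]; exact MeasurableSet.const _
    · simp only [if_neg hr]; exact measurableSet_col hfin _ v c
  invariant_rule := by
    intro v v' r ω ω' φ h
    unfold theRule
    by_cases hr : r < 63
    · simp only [if_pos hr]
    · simp only [if_neg hr]
      exact col_local (K := 64) (r - 63) (by omega) h

lemma theRule_none_le [Countable V] (hG : G.IsAcyclic) (hdeg : ∀ v, {u | G.Adj v u}.ncard = 6)
    (A : ℕ) (hA : 0 < A) : ∃ m0 : ℕ, ∀ m ≥ m0, ∀ v,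
      labelMeasure V {ω | theRule G v (64 + 2 * m) ω = none} ≤
        ENNReal.ofReal ((1 / (A : ℝ)) ^ m) := by
  obtain ⟨m0, hm0⟩ := superexp hG hdeg A hA
  refine ⟨m0, fun m hm v => ?_⟩
  rw [ENNReal.le_ofReal_iff_toReal_le (measure_ne_top _ _) (by positivity)]
  have := hm0 m hm v
  have e : {ω | theRule G v (64 + 2 * m) ω = none} = {ω | col G 64 ω (2 * m + 1) v = none} := by
    ext ω
    unfold theRule
    simp only [Set.mem_ofPred_eq]
    rw [if_neg (by omega)]
    have : 64 + 2 * m - 63 = 2 * m + 1 := by omega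
    rw [this]
  rw [e]
  exact this

lemma ae_stops [Countable V] (hG : G.IsAcyclic) (hdeg : ∀ v, {u | G.Adj v u}.ncard = 6) :
    ∀ᵐ ω ∂(labelMeasure V), ∀ v, ∃ r, theRule G v r ω ≠ none := by
  rw [ae_all_iff]
  intro v
  rw [ae_iff]
  obtain ⟨m0, hm0⟩ := theRule_none_le hG hdeg 2 (by norm_num)
  have hb : ∀ m ≥ m0, labelMeasure V {ω | ¬ ∃ r, theRule G v r ω ≠ none} ≤
      ENNReal.ofReal ((1 / ((2 : ℕ) : ℝ)) ^ m) := by
    intro m hm
    refine le_trans (measure_mono ?_) (hm0 m hm v)
    intro ω hω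
    simp only [Set.mem_ofPred_eq, not_exists, not_not] at hω ⊢
    exact hω _
  have ht : Tendsto (fun m : ℕ => ENNReal.ofReal ((1 / ((2 : ℕ) : ℝ)) ^ m)) atTop (𝓝 0) := by
    rw [← ENNReal.ofReal_zero]
    apply ENNReal.tendsto_ofReal
    exact tendsto_pow_atTop_nhds_zero_of_lt_one (by norm_num) (by norm_num)
  have := ge_of_tendsto ht (eventually_atTop.mpr ⟨m0, hb⟩)
  exact le_antisymm this (zero_le)

lemma radius_lt {hfin : ∀ v, {u | G.Adj v u}.Finite} {v : V} {t : ℕ} {ω : V → unitInterval}
    (h : (t : ℕ∞) < (theAlg G hfin).radius v ω) : theRule G v t ω = none := by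
  by_contra hne
  unfold UniformLocalAlgorithm.radius at h
  have : (⨅ r ∈ {r : ℕ | (theAlg G hfin).rule v r ω ≠ none}, (r : ℕ∞)) ≤ (t : ℕ∞) :=
    iInf₂_le t hne
  exact absurd h (not_lt.mpr this)

theorem main (hG : G.IsTree) (h6 : ∀ v, (G.neighborSet v).ncard = 6) :
    ∃ A : UniformLocalAlgorithm G (Fin 5),
      (∀ᵐ ω ∂(labelMeasure V), ∃ c : V → Fin 5,
        (∀ v, A.Outputs v ω (c v)) ∧ ∀ u v, G.Adj u v → c u ≠ c v) ∧
      ∃ t : ℝ → ℕ, UniformComplexity A t ∧
        (fun ε => (t ε : ℝ)) =o[𝓝[>] 0] (fun ε => Real.log ε⁻¹) := by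
  have hdeg : ∀ v, {u | G.Adj v u}.ncard = 6 := h6
  have hfin : ∀ v, {u | G.Adj v u}.Finite := fun v =>
    Set.finite_of_ncard_pos (by rw [hdeg]; norm_num)
  have : Countable V := countable_of_connected hG.connected hfin
  have hac := hG.isAcyclic
  -- the complexity
  let S : ℝ → Set ℕ := fun ε => {r | ∀ v, labelMeasure V {ω | theRule G v r ω = none} ≤
    ENNReal.ofReal ε}
  have hS : ∀ (A m0 : ℕ), (∀ m ≥ m0, ∀ v,
      labelMeasure V {ω | theRule G v (64 + 2 * m) ω = none} ≤
        ENNReal.ofReal ((1 / (A : ℝ)) ^ m)) → ∀ m ≥ m0, ∀ ε : ℝ, (1 / (A : ℝ)) ^ m ≤ ε →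
      64 + 2 * m ∈ S ε := by
    intro A m0 h m hm ε hε v
    exact (h m hm v).trans (ENNReal.ofReal_le_ofReal hε)
  have hne : ∀ ε > 0, (S ε).Nonempty := by
    intro ε hε
    obtain ⟨m0, hm0⟩ := theRule_none_le hac hdeg 2 (by norm_num)
    obtain ⟨n, hn⟩ := exists_pow_lt_of_lt_one hε (show (1 / ((2 : ℕ) : ℝ)) < 1 by norm_num)
    refine ⟨64 + 2 * max m0 n, hS 2 m0 hm0 _ (le_max_left _ _) ε ?_⟩
    refine le_trans ?_ hn.le
    exact pow_le_pow_of_le_one (by norm_num) (by norm_num) (le_max_right _ _)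
  refine ⟨theAlg G hfin, ?_, fun ε => sInf (S ε), ?_, ?_⟩
  · filter_upwards [ae_stops hac hdeg] with ω hω
    classical
    have hcol : ∀ v, ∃ (t : ℕ) (c : Fin 5), col G 64 ω t v = some c ∧
        (theAlg G hfin).Outputs v ω c := by
      intro v
      have hr := Nat.find_spec (hω v)
      have hmin : ∀ s < Nat.find (hω v), theRule G v s ω = none := by
        intro s hs
        have := Nat.find_min (hω v) hs
        rwa [not_not] at this
      set r := Nat.find (hω v) with hrdef
      have h63 : ¬ r < 63 := by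
        intro hlt
        apply hr
        unfold theRule
        rw [if_pos hlt]
      obtain ⟨c, hc⟩ := Option.ne_none_iff_exists'.mp hr
      refine ⟨r - 63, c, ?_, r, hc, hmin⟩
      unfold theRule at hc
      rwa [if_neg h63] at hc
    choose t c hc hout using hcol
    refine ⟨c, hout, fun u v huv => ?_⟩
    have e1 : col G 64 ω (max (t u) (t v)) u = some (c u) := by
      rw [col_mono (le_max_left (t u) (t v)) (by rw [hc]; simp), hc]
    have e2 : col G 64 ω (max (t u) (t v)) v = some (c v) := by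
      rw [col_mono (le_max_right (t u) (t v)) (by rw [hc]; simp), hc]
    exact col_proper huv e1 e2
  · intro v ε hε
    have h1 : sInf (S ε) ∈ S ε := Nat.sInf_mem (hne ε hε)
    refine le_trans (measure_mono ?_) (h1 v)
    intro ω hω
    exact radius_lt hω
  · rw [isLittleO_iff]
    intro η hη
    set A : ℕ := ⌈Real.exp (4 / η)⌉₊ with hA
    have hA1 : Real.exp (4 / η) ≤ A := Nat.le_ceil _
    have hApos : (0 : ℝ) < A := lt_of_lt_of_le (Real.exp_pos _) hA1
    have hA0 : 0 < A := by exact_mod_cast hApos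
    have hlogA : 4 / η ≤ Real.log A := (Real.le_log_iff_exp_le hApos).mpr hA1
    have hlogpos : 0 < Real.log A := lt_of_lt_of_le (by positivity) hlogA
    obtain ⟨m0, hm0⟩ := theRule_none_le hac hdeg A hA0
    have htend : Tendsto (fun ε : ℝ => Real.log ε⁻¹) (𝓝[>] 0) atTop :=
      Real.tendsto_log_atTop.comp tendsto_inv_nhdsGT_zero
    filter_upwards [htend.eventually_ge_atTop (max (Real.log A * m0) (132 / η)),
      self_mem_nhdsWithin] with ε hε hε0
    have hε0' : 0 < ε := hε0
    set Lg := Real.log ε⁻¹ with hLg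
    have hL1 : Real.log A * m0 ≤ Lg := (le_max_left _ _).trans hε
    have hL2 : 132 / η ≤ Lg := (le_max_right _ _).trans hε
    have hLpos : 0 < Lg := lt_of_lt_of_le (by positivity) hL2
    set m := ⌈Lg / Real.log A⌉₊ with hm
    have hmm0 : m0 ≤ m := by
      have : (m0 : ℝ) ≤ m := by
        refine le_trans ?_ (Nat.le_ceil _)
        rw [le_div_iff₀ hlogpos, mul_comm]; exact hL1
      exact_mod_cast this
    have hpow : (1 / (A : ℝ)) ^ m ≤ ε := by
      have h1 : Lg ≤ m * Real.log A := by
        have := Nat.le_ceil (Lg / Real.log A)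
        rwa [div_le_iff₀ hlogpos] at this
      have h2 : (1 / (A : ℝ)) ^ m = Real.exp (-(m * Real.log A)) := by
        rw [Real.exp_neg, Real.exp_nat_mul, Real.exp_log hApos, one_div, inv_pow]
      have h3 : ε = Real.exp (-Lg) := by
        rw [hLg, Real.log_inv, neg_neg, Real.exp_log hε0']
      rw [h2]
      conv_rhs => rw [h3]
      exact Real.exp_le_exp.mpr (by linarith)
    have hle : sInf (S ε) ≤ 64 + 2 * m := Nat.sInf_le (hS A m0 hm0 m hmm0 ε hpow)
    have hle' : ((sInf (S ε) : ℕ) : ℝ) ≤ 64 + 2 * m := by exact_mod_cast hle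
    have hmle : (m : ℝ) ≤ Lg / Real.log A + 1 := (Nat.ceil_lt_add_one (by positivity)).le
    have hdiv : Lg / Real.log A ≤ Lg * (η / 4) := by
      rw [div_le_iff₀ hlogpos]
      have : 1 ≤ η / 4 * Real.log A := by
        have := mul_le_mul_of_nonneg_left hlogA (show 0 ≤ η / 4 by positivity)
        have e : η / 4 * (4 / η) = 1 := by field_simp
        linarith
      nlinarith
    have h66 : 66 ≤ η / 2 * Lg := by
      have := mul_le_mul_of_nonneg_left hL2 (show 0 ≤ η / 2 by positivity)
      have e : η / 2 * (132 / η) = 66 := by field_simp; norm_num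
      linarith
    rw [Real.norm_of_nonneg (by positivity), Real.norm_of_nonneg hLpos.le]
    linarith

end Pool.Agent.Lib.MP_e8140e_co
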