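import Pool.Agent.Lib.MP_e8140e_co.Step

/-!
# The numerical estimates
-/

set_option autoImplicit false

open MeasureTheory

namespace Pool.Agent.Lib.MP_e8140e_co

/-- Lower bounds for the probabilities of membership, in millionths. -/
def loL : List ℕ :=
  [0, 14441, 27854, 40365, 52078, 63083, 73453, 83252, 92536, 101351, 109739, 117736,
   125374, 132681, 139683, 146402, 152858, 159069, 165051, 170819, 176387, 181767, 186971,
   192008, 196888, 201619, 206210, 210668, 215000, 219212, 223310, 227299, 231185, 234972,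
   238665, 242268, 245784, 249218, 252573, 255852, 259058, 262194, 265263, 268267, 271209,
   274091, 276915, 279684, 282399, 285062, 287675, 290239, 292756, 295228, 297656, 300042,
   302387, 304692, 306958, 309186, 311378, 313535, 315657, 317746]

/-- Upper bounds for the probabilities of membership, in millionths. -/
def upL : List ℕ :=
  [0, 14442, 27856, 40367, 52081, 63086, 73457, 83257, 92541, 101357, 109746, 117744,
   125383, 132691, 139693, 146412, 152868, 159079, 165062, 170831, 176400, 181781, 186985,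
   192023, 196903, 201635, 206227, 210685, 215017, 219229, 223327, 227317, 231203, 234990,
   238683, 242286, 245803, 249237, 252592, 255871, 259078, 262215, 265284, 268289, 271232,
   274115, 276940, 279709, 282424, 285087, 287700, 290265, 292783, 295256, 297685, 300071,
   302416, 304721, 306987, 309216, 311409, 313566, 315689, 317778]

lemma loL_step : ∀ j < 63, loL.getD (j + 1) 0 * (64 ^ 6 * 1000000 ^ 4) ≤
    loL.getD j 0 * (64 ^ 6 * 1000000 ^ 4) + (63000000 - 64 * loL.getD j 0) ^ 5 ∧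
    64 * loL.getD j 0 ≤ 63000000 := by
  decide +kernel

lemma upL_step : ∀ j < 63, upL.getD j 0 * (64 ^ 6 * 1000000 ^ 4) +
    (63000000 - 64 * upL.getD j 0) ^ 5 ≤ upL.getD (j + 1) 0 * (64 ^ 6 * 1000000 ^ 4) ∧
    64 * upL.getD j 0 ≤ 63000000 := by
  decide +kernel

lemma upL_sum : ∑ j ∈ Finset.range 63, upL.getD j 0 ≤ 13008288 := by
  decide +kernel

lemma loL_sum : 3150182400000 ≤ ∑ j ∈ Finset.range 63, (loL.getD j 0) ^ 2 := by
  decide +kernel

lemma step_mono {a b : ℝ} (hab : a ≤ b) (hb : b ≤ 63 / 64) (ha : 0 ≤ a) :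
    a + 1 / 64 * (1 - 1 / 64 - a) ^ 5 ≤ b + 1 / 64 * (1 - 1 / 64 - b) ^ 5 := by
  set u := 1 - 1 / 64 - a with hu
  set w := 1 - 1 / 64 - b with hw
  have hw0 : 0 ≤ w := by rw [hw]; linarith
  have huw : w ≤ u := by rw [hw, hu]; linarith
  have hu1 : u ≤ 1 := by rw [hu]; linarith
  have hu0 : 0 ≤ u := hw0.trans huw
  have hw1 : w ≤ 1 := huw.trans hu1
  have key : u ^ 5 - w ^ 5 ≤ 5 * (u - w) := by
    have h1 : u ^ 5 - w ^ 5 = (u - w) * (u ^ 4 + u ^ 3 * w + u ^ 2 * w ^ 2 + u * w ^ 3 + w ^ 4) := by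
      ring
    have a1 : u ^ 4 ≤ 1 := pow_le_one₀ hu0 hu1
    have a2 : u ^ 3 * w ≤ 1 := mul_le_one₀ (pow_le_one₀ hu0 hu1) hw0 hw1
    have a3 : u ^ 2 * w ^ 2 ≤ 1 :=
      mul_le_one₀ (pow_le_one₀ hu0 hu1) (pow_nonneg hw0 _) (pow_le_one₀ hw0 hw1)
    have a4 : u * w ^ 3 ≤ 1 := mul_le_one₀ hu1 (pow_nonneg hw0 _) (pow_le_one₀ hw0 hw1)
    have a5 : w ^ 4 ≤ 1 := pow_le_one₀ hw0 hw1
    rw [h1, mul_comm]
    exact mul_le_mul_of_nonneg_right (by linarith) (by linarith)
  have h2 : u - w = b - a := by rw [hu, hw]; ring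
  linarith

lemma gp_bounds (j : ℕ) (hj : j ≤ 63) :
    ((loL.getD j 0 : ℕ) : ℝ) / 1000000 ≤ gp 64 j ∧
      gp 64 j ≤ ((upL.getD j 0 : ℕ) : ℝ) / 1000000 := by
  induction j with
  | zero =>
    rw [gp_zero]
    simp [loL, upL]
  | succ j ih =>
    have hj' : j < 63 := by omega
    obtain ⟨ih1, ih2⟩ := ih hj'.le
    obtain ⟨s1, s2⟩ := loL_step j hj'
    obtain ⟨t1, t2⟩ := upL_step j hj'
    have hrec := gp_succ (K := 64) (j := j) (by omega)
    have e64 : ((64 : ℕ) : ℝ) = 64 := by norm_num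
    rw [e64] at hrec
    set a := loL.getD j 0 with ha
    set b := upL.getD j 0 with hb
    set a' := loL.getD (j + 1) 0 with ha'
    set b' := upL.getD (j + 1) 0 with hb'
    have s2r : (64 : ℝ) * a ≤ 63000000 := by exact_mod_cast s2
    have t2r : (64 : ℝ) * b ≤ 63000000 := by exact_mod_cast t2
    have s1r : (a' : ℝ) * (64 ^ 6 * 1000000 ^ 4) ≤
        a * (64 ^ 6 * 1000000 ^ 4) + (63000000 - 64 * a) ^ 5 := by
      have : ((a' * (64 ^ 6 * 1000000 ^ 4) : ℕ) : ℝ) ≤
          ((a * (64 ^ 6 * 1000000 ^ 4) + (63000000 - 64 * a) ^ 5 : ℕ) : ℝ) := by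
        exact_mod_cast s1
      push_cast [Nat.cast_sub s2] at this
      linarith
    have t1r : (b : ℝ) * (64 ^ 6 * 1000000 ^ 4) + (63000000 - 64 * b) ^ 5 ≤
        b' * (64 ^ 6 * 1000000 ^ 4) := by
      have : ((b * (64 ^ 6 * 1000000 ^ 4) + (63000000 - 64 * b) ^ 5 : ℕ) : ℝ) ≤
          ((b' * (64 ^ 6 * 1000000 ^ 4) : ℕ) : ℝ) := by
        exact_mod_cast t1
      push_cast [Nat.cast_sub t2] at this
      linarith
    have hg0 := gp_nonneg (K := 64) j
    rw [hrec]
    constructor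
    · have hm := step_mono ih1 (ih2.trans (by rw [div_le_iff₀ (by norm_num)]; linarith))
        (by positivity)
      refine le_trans ?_ hm
      have e : (a : ℝ) / 1000000 + 1 / 64 * (1 - 1 / 64 - a / 1000000) ^ 5 =
          (a * (64 ^ 6 * 1000000 ^ 4) + (63000000 - 64 * a) ^ 5) /
            (64 ^ 6 * 1000000 ^ 5) := by
        field_simp
        ring
      rw [e, div_le_div_iff₀ (by norm_num) (by norm_num)]
      nlinarith
    · have hm := step_mono ih2 (by rw [div_le_iff₀ (by norm_num)]; linarith) hg0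
      refine hm.trans ?_
      have e : (b : ℝ) / 1000000 + 1 / 64 * (1 - 1 / 64 - b / 1000000) ^ 5 =
          (b * (64 ^ 6 * 1000000 ^ 4) + (63000000 - 64 * b) ^ 5) /
            (64 ^ 6 * 1000000 ^ 5) := by
        field_simp
        ring
      rw [e, div_le_div_iff₀ (by norm_num) (by norm_num)]
      nlinarith

/-- The polynomial that bounds one step, with the coefficient `c` for the small part. -/
noncomputable def stepF (c X : ℝ) : ℝ :=
  5 * X ^ 3 * ((4 - 3 * X) * 0.2032545 - 2 * 0.0492216) + c / 64 + 2 * (1 / 64 * H (1 - X) X)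

lemma mu_bounds : (∑ j ∈ Finset.range 63, gp 64 j) ≤ 13008288 / 1000000 ∧
    3150182400000 / 1000000 ^ 2 ≤ ∑ j ∈ Finset.range 63, (gp 64 j) ^ 2 := by
  constructor
  · have h1 : (∑ j ∈ Finset.range 63, gp 64 j) ≤
        ∑ j ∈ Finset.range 63, ((upL.getD j 0 : ℕ) : ℝ) / 1000000 :=
      Finset.sum_le_sum (fun j hj => (gp_bounds j (Finset.mem_range.mp hj).le).2)
    refine h1.trans ?_
    rw [← Finset.sum_div]
    have := upL_sum
    have h2 : (∑ j ∈ Finset.range 63, ((upL.getD j 0 : ℕ) : ℝ)) ≤ 13008288 := by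
      exact_mod_cast this
    gcongr
  · have h1 : ∑ j ∈ Finset.range 63, (((loL.getD j 0 : ℕ) : ℝ) / 1000000) ^ 2 ≤
        ∑ j ∈ Finset.range 63, (gp 64 j) ^ 2 := by
      apply Finset.sum_le_sum
      intro j hj
      have := (gp_bounds j (Finset.mem_range.mp hj).le).1
      gcongr
    refine le_trans ?_ h1
    simp only [div_pow]
    rw [← Finset.sum_div]
    have := loL_sum
    have h2 : (3150182400000 : ℝ) ≤ ∑ j ∈ Finset.range 63, ((loL.getD j 0 : ℕ) : ℝ) ^ 2 := by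
      exact_mod_cast this
    gcongr

lemma gp_le (j : ℕ) (hj : j ≤ 63) : gp 64 j ≤ 0.4 := by
  have h := (gp_bounds j hj).2
  have : ∀ j ≤ 63, upL.getD j 0 ≤ 400000 := by decide +kernel
  have h2 : ((upL.getD j 0 : ℕ) : ℝ) ≤ 400000 := by exact_mod_cast this j hj
  refine h.trans ?_
  rw [div_le_iff₀ (by norm_num)]
  linarith

lemma step64 {l : ℕ} {X c : ℝ} (hX : ∀ i, xp 64 l i ≤ X) (hX1 : X ≤ 0.7) (hc : coef c X)
    (i : ℕ) : xp 64 (l + 1) i ≤ stepF c X := by
  have hX0 : 0 ≤ X := le_trans measureReal_nonneg (hX 0)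
  have h := xp_succ_le (K := 64) (l := l) (by norm_num) hX (by linarith) (fun j hj => by
    have := gp_le j (by omega)
    linarith) hc i
  have e1 : (64 : ℕ) - 1 = 63 := rfl
  have e64 : ((64 : ℕ) : ℝ) = 64 := by norm_num
  rw [e1, e64] at h
  have hsum : (∑ j ∈ Finset.range 63,
      1 / (64 : ℝ) * (5 * gp 64 j * (X ^ 3 * (4 - 3 * X - 2 * gp 64 j)))) =
      5 * X ^ 3 * ((4 - 3 * X) * (1 / 64 * ∑ j ∈ Finset.range 63, gp 64 j) -
        2 * (1 / 64 * ∑ j ∈ Finset.range 63, (gp 64 j) ^ 2)) := by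
    rw [Finset.mul_sum, Finset.mul_sum, Finset.mul_sum, Finset.mul_sum, ← Finset.sum_sub_distrib,
      Finset.mul_sum]
    apply Finset.sum_congr rfl
    intro j _
    ring
  rw [hsum] at h
  refine h.trans ?_
  unfold stepF
  obtain ⟨m1, m2⟩ := mu_bounds
  have h3 : (4 - 3 * X) * (1 / 64 * ∑ j ∈ Finset.range 63, gp 64 j) -
        2 * (1 / 64 * ∑ j ∈ Finset.range 63, (gp 64 j) ^ 2) ≤
      (4 - 3 * X) * 0.2032545 - 2 * 0.0492216 := by
    have h4 : 1 / 64 * ∑ j ∈ Finset.range 63, gp 64 j ≤ 0.2032545 := by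
      norm_num at m1 ⊢; linarith
    have h5 : (0.0492216 : ℝ) ≤ 1 / 64 * ∑ j ∈ Finset.range 63, (gp 64 j) ^ 2 := by
      norm_num at m2 ⊢; linarith
    have h6 : 0 ≤ 4 - 3 * X := by linarith
    have := mul_le_mul_of_nonneg_left h4 h6
    linarith
  have h7 : 0 ≤ 5 * X ^ 3 := by positivity
  have := mul_le_mul_of_nonneg_left h3 h7
  linarith

lemma x0 (i : ℕ) : xp 64 0 i ≤ 0.6979 := by
  refine (xp_zero_le (K := 64) (by norm_num) i).trans ?_
  have h := (gp_bounds 63 le_rfl).1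
  have e : (loL.getD 63 0) = 317746 := by decide +kernel
  rw [e] at h
  have e1 : (64 : ℕ) - 1 = 63 := rfl
  have e64 : ((64 : ℕ) : ℝ) = 64 := by norm_num
  rw [e1, e64]
  norm_num at h ⊢
  linarith

lemma x1 (i : ℕ) : xp 64 1 i ≤ 0.5955 := by
  refine (step64 x0 (by norm_num) (Or.inl rfl) i).trans ?_
  unfold stepF H; norm_num

lemma x2 (i : ℕ) : xp 64 2 i ≤ 0.4704 := by
  refine (step64 x1 (by norm_num) (Or.inl rfl) i).trans ?_
  unfold stepF H; norm_num

lemma x3 (i : ℕ) : xp 64 3 i ≤ 0.3147 := by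
  refine (step64 x2 (by norm_num) (Or.inl rfl) i).trans ?_
  unfold stepF H; norm_num

lemma x4 (i : ℕ) : xp 64 4 i ≤ 0.1336 := by
  refine (step64 x3 (by norm_num) (Or.inr rfl) i).trans ?_
  unfold stepF H; norm_num

lemma x5 (i : ℕ) : xp 64 5 i ≤ 1 / 60 := by
  refine (step64 x4 (by norm_num) (Or.inr rfl) i).trans ?_
  unfold stepF H; norm_num

/-- From now on every step at least squares the bound. -/
lemma x_sq {l : ℕ} {X : ℝ} (hX : ∀ i, xp 64 l i ≤ X) (hX1 : X ≤ 1 / 60) (i : ℕ) :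
    xp 64 (l + 1) i ≤ X ^ 2 := by
  have hX0 : 0 ≤ X := le_trans measureReal_nonneg (hX 0)
  refine (step64 hX (by linarith) (Or.inr rfl) i).trans ?_
  have hH : H (1 - X) X ≤ 10 * X ^ 3 := by
    have : H (1 - X) X = 6 * X ^ 5 - 15 * X ^ 4 + 10 * X ^ 3 := by unfold H; ring
    rw [this]
    have h4 : 0 ≤ X ^ 4 := by positivity
    nlinarith
  unfold stepF
  have h3 : X ^ 3 ≤ 1 / 60 * X ^ 2 := by
    have : X ^ 3 = X * X ^ 2 := by ring
    rw [this]
    exact mul_le_mul_of_nonneg_right hX1 (by positivity)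
  have h30 : 0 ≤ X ^ 3 := by positivity
  have h2 : 0 ≤ X ^ 2 := by positivity
  have h5 : (4 - 3 * X) * 0.2032545 - 2 * 0.0492216 ≤ 1 := by nlinarith
  have h6 : 5 * X ^ 3 * ((4 - 3 * X) * 0.2032545 - 2 * 0.0492216) ≤ 5 * X ^ 3 * 1 :=
    mul_le_mul_of_nonneg_left h5 (by positivity)
  nlinarith

lemma x_final (l : ℕ) : ∀ i, xp 64 (5 + l) i ≤ (1 / 60) ^ (2 ^ l) := by
  induction l with
  | zero => intro i; simpa using x5 i
  | succ l ih =>
    intro i
    have h1 : ((1 : ℝ) / 60) ^ (2 ^ l) ≤ 1 / 60 := by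
      have : ((1 : ℝ) / 60) ^ (2 ^ l) ≤ (1 / 60) ^ 1 :=
        pow_le_pow_of_le_one (by norm_num) (by norm_num) Nat.one_le_two_pow
      simpa using this
    have := x_sq ih h1 i
    rw [← pow_mul, ← pow_succ] at this
    exact this

/-- The probability of being underdone decays doubly exponentially. -/
lemma und_final (l : ℕ) : nu.real {θ : Theta | und 64 (5 + l) θ} ≤ (1 / 60) ^ (2 ^ l) := by
  set X : ℝ := (1 / 60) ^ (2 ^ l) with hXdef
  have hX0 : 0 ≤ X := by positivity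
  have h1 : X ≤ 1 / 60 := by
    have : ((1 : ℝ) / 60) ^ (2 ^ l) ≤ (1 / 60) ^ 1 :=
      pow_le_pow_of_le_one (by norm_num) (by norm_num) Nat.one_le_two_pow
    rw [pow_one] at this; exact this
  refine (nu_und_le (K := 64) (by norm_num) (x_final l) (by linarith)).trans ?_
  have : H (1 - X) X = 6 * X ^ 5 - 15 * X ^ 4 + 10 * X ^ 3 := by unfold H; ring
  rw [this]
  have h4 : 0 ≤ X ^ 4 := by positivity
  have h3 : X ^ 3 ≤ 1 / 60 * X ^ 2 := by
    have : X ^ 3 = X * X ^ 2 := by ring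
    rw [this]
    exact mul_le_mul_of_nonneg_right h1 (by positivity)
  have h2 : X ^ 2 ≤ 1 / 60 * X := by
    have : X ^ 2 = X * X := by ring
    rw [this]
    exact mul_le_mul_of_nonneg_right h1 hX0
  have h5 : X ^ 5 ≤ X ^ 4 := by
    have : X ^ 5 = X * X ^ 4 := by ring
    rw [this]
    nlinarith
  nlinarith

end Pool.Agent.Lib.MP_e8140e_co
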