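import Pool.Agent.Lib.MP_e8140e_co.Count

/-!
# The processes on the rooted tree
-/

set_option autoImplicit false

open MeasureTheory

namespace Pool.Agent.Lib.MP_e8140e_co

/-- Members of the independent set, on the rooted tree. -/
def sIn (K : ℕ) : ℕ → Theta → Prop
  | 0, _ => False
  | j + 1, θ => sIn K j θ ∨
      (lev K (θ []) = j ∧ ∀ k, lev K (sub θ k []) ≠ j ∧ ¬ sIn K j (sub θ k))

/-- Vertices done after `l` steps, if the parent has level `i` and is never done. -/
def dn (K : ℕ) : ℕ → ℕ → Theta → Prop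
  | 0, i, θ => sIn K (K - 1) θ ∧ lev K (θ []) ≠ i
  | l + 1, i, θ => (sIn K (K - 1) θ ∧ lev K (θ []) ≠ i) ∨
      3 ≤ {k | dn K l (lev K (θ [])) (sub θ k)}.ncard

/-- At most two children are done after `l` steps. -/
def und (K l : ℕ) (θ : Theta) : Prop := {k | dn K l (lev K (θ [])) (sub θ k)}.ncard ≤ 2

variable {K : ℕ}

lemma sIn_mono {i j : ℕ} (hij : i ≤ j) {θ : Theta} (h : sIn K i θ) : sIn K j θ := by
  induction j, hij using Nat.le_induction with
  | base => exact h
  | succ j _ ih => exact Or.inl ih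

lemma sIn_lev {j : ℕ} {θ : Theta} (h : sIn K j θ) :
    lev K (θ []) < j ∧ ∀ k, lev K (sub θ k []) ≠ lev K (θ []) ∧
      ¬ sIn K (lev K (θ [])) (sub θ k) := by
  induction j with
  | zero => exact h.elim
  | succ j ih =>
    rcases h with h | ⟨h1, h2⟩
    · exact ⟨(ih h).1.trans (Nat.lt_succ_self _), (ih h).2⟩
    · rw [h1]; exact ⟨Nat.lt_succ_self _, h2⟩

lemma dn_base {l i : ℕ} {θ : Theta} (h : sIn K (K - 1) θ) (h' : lev K (θ []) ≠ i) :
    dn K l i θ := by
  cases l with
  | zero => exact ⟨h, h'⟩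
  | succ l => exact Or.inl ⟨h, h'⟩

/-- Early members are done. -/
lemma dn_of_sIn {l j : ℕ} (hj : j ≤ K - 1) {θ : Theta} (h : sIn K j θ) : dn K l j θ :=
  dn_base (sIn_mono hj h) (sIn_lev h).1.ne

/-! ### Measurability -/

lemma measurableSet_levB (j : ℕ) : MeasurableSet {x : unitInterval | lev K x = j} := by
  have : Measurable (fun x : unitInterval => lev K x) := by
    unfold lev
    apply Nat.measurable_floor.comp
    exact measurable_const.mul measurable_subtype_coe
  exact this (measurableSet_singleton j)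

lemma measurableSet_levRoot (j : ℕ) : MeasurableSet {θ : Theta | lev K (θ []) = j} :=
  measurable_root (measurableSet_levB j)

lemma measurableSet_sIn (j : ℕ) : MeasurableSet {θ : Theta | sIn K j θ} := by
  induction j with
  | zero => simp only [sIn]; exact MeasurableSet.const _
  | succ j ih =>
    simp only [sIn]
    apply MeasurableSet.union ih
    apply MeasurableSet.inter (measurableSet_levRoot j)
    have : {θ : Theta | ∀ k, lev K (sub θ k []) ≠ j ∧ ¬ sIn K j (sub θ k)} =
        ⋂ k, (fun θ => sub θ k) ⁻¹' ({θ | lev K (θ []) = j}ᶜ ∩ {θ | sIn K j θ}ᶜ) := by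
      ext θ; simp
    change MeasurableSet {θ : Theta | ∀ k, lev K (sub θ k []) ≠ j ∧ ¬ sIn K j (sub θ k)}
    rw [this]
    exact MeasurableSet.iInter (fun k => measurable_sub k
      ((measurableSet_levRoot j).compl.inter ih.compl))

lemma measurableSet_undLe {D : ℕ → Set Theta} (hD : ∀ j, MeasurableSet (D j)) (m : ℕ) :
    MeasurableSet {θ : Theta | {k | sub θ k ∈ D (lev K (θ []))}.ncard ≤ m} := by
  have : {θ : Theta | {k | sub θ k ∈ D (lev K (θ []))}.ncard ≤ m} =
      ⋃ j, ({θ | lev K (θ []) = j} ∩ {θ | {k | sub θ k ∈ D j} ∈ {T | T.ncard ≤ m}}) := by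
    ext θ; simp
  rw [this]
  exact MeasurableSet.iUnion (fun j => (measurableSet_levRoot j).inter
    (measurableSet_types (D j) (hD j) _))

lemma measurableSet_dn (l : ℕ) : ∀ i, MeasurableSet {θ : Theta | dn K l i θ} := by
  induction l with
  | zero =>
    intro i
    exact (measurableSet_sIn (K - 1)).inter (measurableSet_levRoot i).compl
  | succ l ih =>
    intro i
    have : {θ : Theta | dn K (l + 1) i θ} =
        ({θ | sIn K (K - 1) θ} ∩ {θ | lev K (θ []) = i}ᶜ) ∪
        {θ : Theta | {k | sub θ k ∈ {θ' | dn K l (lev K (θ [])) θ'}}.ncard ≤ 2}ᶜ := by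
      ext θ
      simp only [dn, Set.mem_ofPred_eq, Set.mem_union, Set.mem_inter_iff, Set.mem_compl_iff,
        not_le]
      exact Iff.rfl
    rw [this]
    exact ((measurableSet_sIn (K - 1)).inter (measurableSet_levRoot i).compl).union
      (measurableSet_undLe (D := fun j => {θ' | dn K l j θ'}) ih 2).compl

lemma measurableSet_und (l : ℕ) : MeasurableSet {θ : Theta | und K l θ} :=
  measurableSet_undLe (D := fun j => {θ' | dn K l j θ'}) (measurableSet_dn l) 2

/-! ### Levels -/

lemma lev_eq_iff (hK : 0 < K) (x : unitInterval) (j : ℕ) :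
    lev K x = j ↔ (j : ℝ) / K ≤ x ∧ (x : ℝ) < (j + 1 : ℝ) / K := by
  have hK' : (0 : ℝ) < K := by exact_mod_cast hK
  unfold lev
  rw [Nat.floor_eq_iff (by have := x.2.1; positivity), div_le_iff₀ hK', lt_div_iff₀ hK',
    mul_comm (x : ℝ)]

lemma volume_lev {j : ℕ} (hj : j < K) :
    (volume : Measure unitInterval).real {x | lev K x = j} = 1 / K := by
  have hK : 0 < K := by omega
  have hK' : (0 : ℝ) < K := by exact_mod_cast hK
  have h0 : (0 : ℝ) ≤ (j : ℝ) / K := by positivity
  have h1 : ((j : ℝ) + 1) / K ≤ 1 := by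
    rw [div_le_one hK']; exact_mod_cast hj
  have h01 : (j : ℝ) / K ≤ ((j : ℝ) + 1) / K := by gcongr; linarith
  have : {x : unitInterval | lev K x = j} =
      Set.Ico ⟨(j : ℝ) / K, h0, h01.trans h1⟩ ⟨((j : ℝ) + 1) / K, h0.trans h01, h1⟩ := by
    ext x
    rw [Set.mem_ofPred_eq, lev_eq_iff hK, Set.mem_Ico, ← Subtype.coe_le_coe,
      ← Subtype.coe_lt_coe]
  rw [this, measureReal_def, unitInterval.volume_Ico, ENNReal.toReal_ofReal]
  · simp only; ring
  · simp only; linarith

lemma lev_le (x : unitInterval) : lev K x ≤ K := by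
  unfold lev
  have h := x.2.2
  have h0 := x.2.1
  have : (K : ℝ) * (x : ℝ) ≤ K := by
    have : (0 : ℝ) ≤ K := Nat.cast_nonneg K
    nlinarith
  exact_mod_cast (Nat.floor_le (by positivity)).trans this

lemma volume_lev_top (hK : 0 < K) {j : ℕ} (hj : K ≤ j) :
    (volume : Measure unitInterval).real {x | lev K x = j} = 0 := by
  have hsub : {x : unitInterval | lev K x = j} ⊆ Set.Icc 1 1 := by
    intro x hx
    rw [Set.mem_ofPred_eq, lev_eq_iff hK] at hx
    have hK' : (0 : ℝ) < K := by exact_mod_cast hK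
    have h1 : (1 : ℝ) ≤ (j : ℝ) / K := by
      rw [le_div_iff₀ hK', one_mul]; exact_mod_cast hj
    have : (1 : ℝ) ≤ x := h1.trans hx.1
    rw [Set.mem_Icc, ← Subtype.coe_le_coe, ← Subtype.coe_le_coe]
    exact ⟨this, x.2.2⟩
  have h := measureReal_mono (μ := (volume : Measure unitInterval)) hsub (measure_ne_top _ _)
  rw [measureReal_def (s := Set.Icc _ _), unitInterval.volume_Icc] at h
  simp only [sub_self, ENNReal.ofReal_zero, ENNReal.toReal_zero] at h
  exact le_antisymm h measureReal_nonneg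

lemma volume_lev_le (hK : 0 < K) (j : ℕ) :
    (volume : Measure unitInterval).real {x | lev K x = j} ≤ 1 / K := by
  rcases lt_or_ge j K with h | h
  · rw [volume_lev h]
  · rw [volume_lev_top hK h]; positivity

lemma nu_lev {B : Set unitInterval} (hB : MeasurableSet B) :
    nu.real {θ : Theta | θ [] ∈ B} = (volume : Measure unitInterval).real B := by
  have := nu_box_real B hB (fun _ => Set.univ) (fun _ => MeasurableSet.univ)
  simpa using this

/-! ### The recursion for the independent set -/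

/-- Probability of membership after `j` rounds. -/
noncomputable def gp (K j : ℕ) : ℝ := nu.real {θ : Theta | sIn K j θ}

lemma gp_zero : gp K 0 = 0 := by
  simp [gp, sIn]

lemma gp_nonneg (j : ℕ) : 0 ≤ gp K j := measureReal_nonneg

lemma gp_succ {j : ℕ} (hj : j < K) :
    gp K (j + 1) = gp K j + 1 / K * (1 - 1 / K - gp K j) ^ 5 := by
  have hm1 := measurableSet_sIn (K := K) j
  have hm2 := measurableSet_levRoot (K := K) j
  set Q : Set Theta := {θ | lev K (θ []) = j}ᶜ ∩ {θ | sIn K j θ}ᶜ with hQ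
  have hQm : MeasurableSet Q := hm2.compl.inter hm1.compl
  have hset : {θ : Theta | sIn K (j + 1) θ} =
      {θ | sIn K j θ} ∪ {θ | θ [] ∈ {x | lev K x = j} ∧ ∀ k, sub θ k ∈ Q} := by
    ext θ
    simp only [sIn, hQ, Set.mem_ofPred_eq, Set.mem_union, Set.mem_inter_iff,
      Set.mem_compl_iff, ne_eq]
  have hdisj : Disjoint {θ : Theta | sIn K j θ}
      {θ | θ [] ∈ {x | lev K x = j} ∧ ∀ k, sub θ k ∈ Q} := by
    rw [Set.disjoint_left]
    rintro θ h1 ⟨h2, _⟩
    exact (sIn_lev h1).1.ne h2
  have hQr : nu.real Q = 1 - 1 / K - gp K j := by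
    have e : Q = ({θ : Theta | θ [] ∈ {x | lev K x = j}} ∪ {θ | sIn K j θ})ᶜ := by
      rw [hQ, Set.compl_union]; rfl
    have hm2' : MeasurableSet {θ : Theta | θ [] ∈ {x | lev K x = j}} := hm2
    rw [e, probReal_compl_eq_one_sub (hm2'.union hm1), measureReal_union _ hm1,
      nu_lev (measurableSet_levB j), volume_lev hj, gp]
    · ring
    · rw [Set.disjoint_left]
      intro θ h2 h1
      exact (sIn_lev h1).1.ne h2
  rw [gp, hset, measureReal_union' hdisj hm1, nu_box_real _ (measurableSet_levB j) _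
    (fun _ => hQm), volume_lev hj]
  simp only [hQr, Finset.prod_const, Finset.card_univ, Fintype.card_fin]
  rfl

end Pool.Agent.Lib.MP_e8140e_co
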