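import Pool.Agent.Lib.MP_e8140e_co.Rec

/-!
# One step of the recursion on the rooted tree
-/

set_option autoImplicit false

open MeasureTheory

namespace Pool.Agent.Lib.MP_e8140e_co

lemma mono_cubic {x X g : ℝ} (hx : 0 ≤ x) (hxX : x ≤ X) (hX : X ≤ 1 - g / 2) :
    x ^ 3 * (4 - 3 * x - 2 * g) ≤ X ^ 3 * (4 - 3 * X - 2 * g) := by
  have hX0 : 0 ≤ X := hx.trans hxX
  have h1 : 0 ≤ (4 - 2 * g) * (X ^ 2 + X * x + x ^ 2) -
      3 * (X ^ 3 + X ^ 2 * x + X * x ^ 2 + x ^ 3) := by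
    have h2 : 4 * X * (X ^ 2 + X * x + x ^ 2) ≤ (4 - 2 * g) * (X ^ 2 + X * x + x ^ 2) := by
      apply mul_le_mul_of_nonneg_right
      · linarith
      · positivity
    have h3 : x ^ 3 ≤ X ^ 3 := by gcongr
    have h4 : x ^ 3 ≤ X ^ 2 * x := by
      have : x ^ 2 ≤ X ^ 2 := by gcongr
      nlinarith
    have h5 : x ^ 3 ≤ X * x ^ 2 := by
      have : 0 ≤ x ^ 2 := by positivity
      nlinarith
    nlinarith
  nlinarith [mul_nonneg (sub_nonneg.mpr hxX) h1]

lemma mono_H {x X : ℝ} (hx : 0 ≤ x) (hxX : x ≤ X) (hX : X ≤ 1) :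
    H (1 - x) x ≤ H (1 - X) X := by
  have hH : ∀ y : ℝ, H (1 - y) y = 6 * y ^ 5 - 15 * y ^ 4 + 10 * y ^ 3 := by
    intro y; unfold H; ring
  rw [hH, hH]
  have hmono : MonotoneOn (fun y : ℝ => 6 * y ^ 5 - 15 * y ^ 4 + 10 * y ^ 3) (Set.Icc 0 1) := by
    apply monotoneOn_of_deriv_nonneg (convex_Icc 0 1)
    · fun_prop
    · fun_prop
    · intro y _
      have : deriv (fun y : ℝ => 6 * y ^ 5 - 15 * y ^ 4 + 10 * y ^ 3) y =
          30 * (y * (1 - y)) ^ 2 := by
        have h : HasDerivAt (fun y : ℝ => 6 * y ^ 5 - 15 * y ^ 4 + 10 * y ^ 3)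
            (6 * (((5 : ℕ) : ℝ) * y ^ (5 - 1)) - 15 * (((4 : ℕ) : ℝ) * y ^ (4 - 1)) +
              10 * (((3 : ℕ) : ℝ) * y ^ (3 - 1))) y :=
          (((hasDerivAt_pow 5 y).const_mul 6).sub ((hasDerivAt_pow 4 y).const_mul 15)).add
            ((hasDerivAt_pow 3 y).const_mul 10)
        rw [h.deriv]
        norm_num
        ring
      rw [this]; positivity
  exact hmono ⟨hx, hxX.trans hX⟩ ⟨hx.trans hxX, hX⟩ hxX

variable {K : ℕ}

/-- Probability not to be done, if the parent has level `i` and is not done. -/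
noncomputable def xp (K l i : ℕ) : ℝ := nu.real {θ : Theta | ¬ dn K l i θ}

/-- The coefficient of the small part. -/
def coef (c X : ℝ) : Prop := c = 5 ∨ c = 30 * X ^ 2

lemma nu_und_lev {l j : ℕ} {X : ℝ} (hK : 0 < K) (hX1 : X ≤ 1) (hX : xp K l j ≤ X) :
    nu.real {θ : Theta | lev K (θ []) = j ∧ und K l θ} ≤ 1 / K * H (1 - X) X := by
  have hD := measurableSet_dn (K := K) l j
  have hset : {θ : Theta | lev K (θ []) = j ∧ und K l θ} =
      {θ | θ [] ∈ {x | lev K x = j} ∧ {k | sub θ k ∈ {θ' | dn K l j θ'}}.ncard ≤ 2} := by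
    ext θ
    simp only [Set.mem_ofPred_eq, und]
    constructor
    · rintro ⟨h1, h2⟩; rw [h1] at h2; exact ⟨h1, h2⟩
    · rintro ⟨h1, h2⟩; refine ⟨h1, ?_⟩; rw [h1]; exact h2
  have hx0 : 0 ≤ xp K l j := measureReal_nonneg
  rw [hset, nu_le_two _ (measurableSet_levB j) _ hD]
  have e : nu.real {θ' : Theta | dn K l j θ'}ᶜ = xp K l j := rfl
  rw [e]
  have h1 := mono_H hx0 hX hX1
  have h2 := volume_lev_le hK j
  have h3 : 0 ≤ H (1 - xp K l j) (xp K l j) := by
    have : 0 ≤ 1 - xp K l j := by linarith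
    unfold H; positivity
  calc (volume : Measure unitInterval).real {x | lev K x = j} * H (1 - xp K l j) (xp K l j)
      ≤ 1 / K * H (1 - xp K l j) (xp K l j) := mul_le_mul_of_nonneg_right h2 h3
    _ ≤ 1 / K * H (1 - X) X := mul_le_mul_of_nonneg_left h1 (by positivity)

lemma nu_und_top {l j : ℕ} (hK : 0 < K) (hj : K ≤ j) :
    nu.real {θ : Theta | lev K (θ []) = j ∧ und K l θ} = 0 := by
  have h : {θ : Theta | lev K (θ []) = j ∧ und K l θ} ⊆ {θ | θ [] ∈ {x | lev K x = j}} :=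
    fun θ h => h.1
  have h2 := measureReal_mono (μ := nu) h (measure_ne_top _ _)
  rw [nu_lev (measurableSet_levB j), volume_lev_top hK hj] at h2
  exact le_antisymm h2 measureReal_nonneg

lemma nu_level {l j : ℕ} {X c : ℝ} (hj : j < K - 1) (hX : xp K l j ≤ X)
    (hg : X ≤ 1 - gp K j / 2) (hc : coef c X) :
    nu.real {θ : Theta | lev K (θ []) = j ∧ ¬ sIn K (K - 1) θ ∧ und K l θ} ≤
      1 / K * (5 * gp K j * (X ^ 3 * (4 - 3 * X - 2 * gp K j))) + 1 / K * (c * (1 / K)) := by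
  have hK : 0 < K := by omega
  have hx0 : 0 ≤ xp K l j := measureReal_nonneg
  have hg0 : 0 ≤ gp K j := gp_nonneg j
  have hD := measurableSet_dn (K := K) l j
  have hA := measurableSet_sIn (K := K) j
  have hE := measurableSet_levRoot (K := K) j
  have hB := measurableSet_levB (K := K) j
  have hsub : {θ : Theta | lev K (θ []) = j ∧ ¬ sIn K (K - 1) θ ∧ und K l θ} ⊆
      {θ | θ [] ∈ {x | lev K x = j} ∧ (∃ k, sub θ k ∈ {θ' | sIn K j θ'}) ∧
        {k | sub θ k ∈ {θ' | dn K l j θ'}}.ncard ≤ 2} ∪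
      {θ | θ [] ∈ {x | lev K x = j} ∧ (∃ k, sub θ k ∈ {θ' : Theta | lev K (θ' []) = j}) ∧
        {k | sub θ k ∈ {θ' | dn K l j θ'}}.ncard ≤ 2} := by
    rintro θ ⟨h1, h2, h3⟩
    have h3' : {k | sub θ k ∈ {θ' | dn K l j θ'}}.ncard ≤ 2 := by
      unfold und at h3; rw [h1] at h3; exact h3
    have h4 : ∃ k, sIn K j (sub θ k) ∨ lev K (sub θ k []) = j := by
      by_contra hcon
      push Not at hcon
      exact h2 (sIn_mono (Nat.succ_le_of_lt hj) (Or.inr ⟨h1, fun k =>
        ⟨(hcon k).2, (hcon k).1⟩⟩))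
    obtain ⟨k, hk | hk⟩ := h4
    · exact Or.inl ⟨h1, ⟨k, hk⟩, h3'⟩
    · exact Or.inr ⟨h1, ⟨k, hk⟩, h3'⟩
  refine (measureReal_mono hsub (measure_ne_top _ _)).trans ((measureReal_union_le _ _).trans ?_)
  have hvol : (volume : Measure unitInterval).real {x | lev K x = j} = 1 / K :=
    volume_lev (by omega)
  have e : nu.real {θ' : Theta | dn K l j θ'}ᶜ = xp K l j := rfl
  have e2 : nu.real {θ' : Theta | lev K (θ' []) = j} = 1 / K := by
    rw [← hvol, ← nu_lev hB]; rfl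
  have e3 : nu.real {θ' : Theta | sIn K j θ'} = gp K j := rfl
  apply add_le_add
  · rw [nu_exists_mem _ hB _ _ hA hD (fun θ h => dn_of_sIn hj.le h), hvol, e, e3]
    have := mono_cubic hx0 hX hg
    have h5 : 0 ≤ 5 * gp K j := by positivity
    have h6 : (0 : ℝ) ≤ 1 / K := by positivity
    calc (1 : ℝ) / K * (5 * gp K j * xp K l j ^ 3 * (4 - 3 * xp K l j - 2 * gp K j)) =
        1 / K * (5 * gp K j * (xp K l j ^ 3 * (4 - 3 * xp K l j - 2 * gp K j))) := by ring
      _ ≤ _ := mul_le_mul_of_nonneg_left (mul_le_mul_of_nonneg_left this h5) h6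
  · obtain ⟨h5, h6⟩ := nu_exists_le {x | lev K x = j} hB {θ' : Theta | lev K (θ' []) = j}
      {θ' | dn K l j θ'} hE hD
    rw [hvol, e2] at h5 h6
    rw [e] at h6
    rcases hc with rfl | rfl
    · exact h5
    · refine h6.trans ?_
      have h7 : xp K l j ^ 2 ≤ X ^ 2 := by gcongr
      have h8 : (0 : ℝ) ≤ 1 / K := by positivity
      apply mul_le_mul_of_nonneg_left _ h8
      calc 30 * (1 / (K : ℝ)) * xp K l j ^ 2 ≤ 30 * (1 / (K : ℝ)) * X ^ 2 :=
          mul_le_mul_of_nonneg_left h7 (by positivity)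
        _ = _ := by ring

/-- One step of the recursion. -/
lemma xp_succ_le {l : ℕ} {X c : ℝ} (hK : 1 < K) (hX : ∀ i, xp K l i ≤ X) (hX1 : X ≤ 1)
    (hg : ∀ j < K - 1, X ≤ 1 - gp K j / 2) (hc : coef c X) (i : ℕ) :
    xp K (l + 1) i ≤ (∑ j ∈ Finset.range (K - 1),
      1 / (K : ℝ) * (5 * gp K j * (X ^ 3 * (4 - 3 * X - 2 * gp K j)))) + c / K +
        2 * (1 / K * H (1 - X) X) := by
  have hK0 : 0 < K := by omega
  have hKr : (0 : ℝ) < K := by exact_mod_cast hK0
  have hc0 : 0 ≤ c := by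
    rcases hc with rfl | rfl <;> positivity
  have hsub : {θ : Theta | ¬ dn K (l + 1) i θ} ⊆
      (⋃ j ∈ Finset.range (K - 1), {θ | lev K (θ []) = j ∧ ¬ sIn K (K - 1) θ ∧ und K l θ}) ∪
      ({θ | lev K (θ []) = K - 1 ∧ und K l θ} ∪ ({θ | lev K (θ []) = K ∧ und K l θ} ∪
        {θ | lev K (θ []) = i ∧ und K l θ})) := by
    intro θ h
    simp only [Set.mem_ofPred_eq, dn, not_or, not_and, not_not, not_le] at h
    obtain ⟨h1, h2⟩ := h
    have hu : und K l θ := by unfold und; omega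
    by_cases hs : sIn K (K - 1) θ
    · exact Or.inr (Or.inr (Or.inr ⟨h1 hs, hu⟩))
    · have hl := lev_le (K := K) (θ [])
      rcases lt_or_ge (lev K (θ [])) (K - 1) with h | h
      · left
        simp only [Set.mem_iUnion, exists_prop, Finset.mem_range]
        exact ⟨_, h, rfl, hs, hu⟩
      · rcases (by omega : lev K (θ []) = K - 1 ∨ lev K (θ []) = K) with h' | h'
        · exact Or.inr (Or.inl ⟨h', hu⟩)
        · exact Or.inr (Or.inr (Or.inl ⟨h', hu⟩))
  refine (measureReal_mono hsub (measure_ne_top _ _)).trans ((measureReal_union_le _ _).trans ?_)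
  have b1 : nu.real (⋃ j ∈ Finset.range (K - 1),
      {θ : Theta | lev K (θ []) = j ∧ ¬ sIn K (K - 1) θ ∧ und K l θ}) ≤
      (∑ j ∈ Finset.range (K - 1),
        1 / (K : ℝ) * (5 * gp K j * (X ^ 3 * (4 - 3 * X - 2 * gp K j)))) + c / K := by
    refine (measureReal_biUnion_finset_le _ _).trans ?_
    have := Finset.sum_le_sum (s := Finset.range (K - 1)) (fun j hj =>
      nu_level (l := l) (X := X) (c := c) (Finset.mem_range.mp hj) (hX j)
        (hg j (Finset.mem_range.mp hj)) hc)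
    refine this.trans ?_
    rw [Finset.sum_add_distrib]
    apply add_le_add le_rfl
    rw [Finset.sum_const, Finset.card_range, nsmul_eq_mul]
    have h1 : ((K - 1 : ℕ) : ℝ) ≤ K := by exact_mod_cast Nat.sub_le _ _
    have h2 : (0 : ℝ) ≤ 1 / K * (c * (1 / K)) := by positivity
    calc ((K - 1 : ℕ) : ℝ) * (1 / K * (c * (1 / K))) ≤ K * (1 / K * (c * (1 / K))) :=
        mul_le_mul_of_nonneg_right h1 h2
      _ = c / K := by field_simp
  have b2 : nu.real ({θ : Theta | lev K (θ []) = K - 1 ∧ und K l θ} ∪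
      ({θ | lev K (θ []) = K ∧ und K l θ} ∪ {θ | lev K (θ []) = i ∧ und K l θ})) ≤
      2 * (1 / K * H (1 - X) X) := by
    refine (measureReal_union_le _ _).trans ?_
    have h1 := nu_und_lev (l := l) (j := K - 1) hK0 hX1 (hX _)
    have h2 := measureReal_union_le (μ := nu) {θ : Theta | lev K (θ []) = K ∧ und K l θ}
      {θ | lev K (θ []) = i ∧ und K l θ}
    have h3 := nu_und_top (l := l) (j := K) hK0 le_rfl
    have h4 := nu_und_lev (l := l) (j := i) hK0 hX1 (hX _)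
    linarith
  linarith

/-- The total probability of being underdone. -/
lemma nu_und_le {l : ℕ} {X : ℝ} (hK : 0 < K) (hX : ∀ i, xp K l i ≤ X) (hX1 : X ≤ 1) :
    nu.real {θ : Theta | und K l θ} ≤ H (1 - X) X := by
  have hKr : (0 : ℝ) < K := by exact_mod_cast hK
  have hsub : {θ : Theta | und K l θ} ⊆
      (⋃ j ∈ Finset.range K, {θ : Theta | lev K (θ []) = j ∧ und K l θ}) ∪
        {θ | lev K (θ []) = K ∧ und K l θ} := by
    intro θ h
    rcases lt_or_ge (lev K (θ [])) K with h' | h'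
    · left
      simp only [Set.mem_iUnion, exists_prop, Finset.mem_range]
      exact ⟨_, h', rfl, h⟩
    · exact Or.inr ⟨le_antisymm (lev_le _) h', h⟩
  refine (measureReal_mono hsub (measure_ne_top _ _)).trans ((measureReal_union_le _ _).trans ?_)
  rw [nu_und_top hK le_rfl, add_zero]
  refine (measureReal_biUnion_finset_le _ _).trans ?_
  refine (Finset.sum_le_sum (fun j _ => nu_und_lev hK hX1 (hX j))).trans ?_
  rw [Finset.sum_const, Finset.card_range, nsmul_eq_mul]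
  apply le_of_eq
  field_simp

/-- The initial value. -/
lemma xp_zero_le (hK : 0 < K) (i : ℕ) : xp K 0 i ≤ 1 - gp K (K - 1) + 1 / K := by
  have hm := measurableSet_sIn (K := K) (K - 1)
  have hsub : {θ : Theta | ¬ dn K 0 i θ} ⊆ {θ | sIn K (K - 1) θ}ᶜ ∪
      {θ | θ [] ∈ {x | lev K x = i}} := by
    intro θ h
    simp only [Set.mem_ofPred_eq, dn, not_and, not_not] at h
    by_cases hs : sIn K (K - 1) θ
    · exact Or.inr (h hs)
    · exact Or.inl hs
  refine (measureReal_mono hsub (measure_ne_top _ _)).trans ((measureReal_union_le _ _).trans ?_)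
  rw [probReal_compl_eq_one_sub hm, nu_lev (measurableSet_levB i)]
  have := volume_lev_le hK i
  unfold gp
  linarith

end Pool.Agent.Lib.MP_e8140e_co
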