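import Pool.Agent.Lib.MP_e8140e_co.Local

/-!
# The labelled rooted tree in which every vertex has five children
-/

set_option autoImplicit false

open MeasureTheory

namespace Pool.Agent.Lib.MP_e8140e_co

/-- Labellings of the rooted tree in which every vertex has five children; a vertex is the list
of choices on the way from the root. -/
abbrev Theta := List (Fin 5) → unitInterval

/-- The law of the labels of the rooted tree. -/
noncomputable abbrev nu : Measure Theta := labelMeasure (List (Fin 5))

/-- The labelled subtree of a child of the root. -/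
def sub (θ : Theta) (k : Fin 5) : Theta := fun w => θ (k :: w)

/-- Auxiliary index types. -/
def Kap : Option (Fin 5) → Type
  | none => Unit
  | some _ => List (Fin 5)

/-- Lists are the empty list or a list with a head. -/
def listEquiv : ((i : Option (Fin 5)) × Kap i) ≃ List (Fin 5) where
  toFun := fun p => match p with
    | ⟨none, _⟩ => []
    | ⟨some k, w⟩ => k :: (show List (Fin 5) from w)
  invFun := fun l => match l with
    | [] => ⟨none, (() : Unit)⟩
    | k :: w => ⟨some k, (w : List (Fin 5))⟩
  left_inv := by
    rintro ⟨_ | k, w⟩
    · rfl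
    · rfl
  right_inv := by
    rintro (_ | ⟨k, w⟩) <;> rfl

/-- The product formula. -/
lemma nu_box (B : Set unitInterval) (hB : MeasurableSet B) (Q : Fin 5 → Set Theta)
    (hQ : ∀ k, MeasurableSet (Q k)) :
    nu {θ | θ [] ∈ B ∧ ∀ k, sub θ k ∈ Q k} = volume B * ∏ k, nu (Q k) := by
  have h1 := Measure.infinitePi_map_piCongrLeft (X := fun _ : List (Fin 5) => unitInterval)
    (fun _ : List (Fin 5) => (volume : Measure unitInterval)) listEquiv
  have h2 := Measure.infinitePi_map_piCurry_symm (κ := Kap) (X := fun _ _ => unitInterval)
    (fun (_ : Option (Fin 5)) (_ : Kap _) => (volume : Measure unitInterval))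
  rw [← h2, Measure.infinitePi_eq_pi] at h1
  have hmeas : MeasurableSet {θ : Theta | θ [] ∈ B ∧ ∀ k, sub θ k ∈ Q k} := by
    have hroot : Measurable (fun θ : Theta => θ []) := measurable_pi_apply _
    refine MeasurableSet.inter (hroot hB) ?_
    have : {θ : Theta | ∀ k, sub θ k ∈ Q k} = ⋂ k, {θ | sub θ k ∈ Q k} := by ext; simp
    change MeasurableSet {θ : Theta | ∀ k, sub θ k ∈ Q k}
    rw [this]
    apply MeasurableSet.iInter
    intro k
    have hs : Measurable (fun θ : Theta => sub θ k) := by
      apply measurable_pi_lambda
      intro w
      exact measurable_pi_apply _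
    exact hs (hQ k)
  unfold nu labelMeasure
  conv_lhs => rw [← h1]
  rw [Measure.map_apply (MeasurableEquiv.measurable _) hmeas, Measure.map_apply
    (MeasurableEquiv.measurable _) ((MeasurableEquiv.measurable _) hmeas)]
  have hpre : (MeasurableEquiv.piCurry fun (x : Option (Fin 5)) (_ : Kap x) =>
      unitInterval).symm ⁻¹' ((MeasurableEquiv.piCongrLeft (fun _ : List (Fin 5) =>
        unitInterval) listEquiv) ⁻¹' {θ : Theta | θ [] ∈ B ∧ ∀ k, sub θ k ∈ Q k}) =
      Set.pi Set.univ (fun i : Option (Fin 5) => match i with
        | none => {h : Kap none → unitInterval | h (() : Unit) ∈ B}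
        | some k => {h : Kap (some k) → unitInterval | (show Theta from h) ∈ Q k}) := by
    ext g
    simp only [Set.mem_preimage, Set.mem_pi, Set.mem_univ, true_implies, Option.forall]
    rfl
  rw [hpre, Measure.pi_pi, Fintype.prod_option]
  congr 1
  exact (measurePreserving_eval_infinitePi (fun _ : Unit => (volume : Measure unitInterval))
    ()).measure_preimage hB.nullMeasurableSet

end Pool.Agent.Lib.MP_e8140e_co
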