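import Pool.Agent.Lib.MP_e8140e_co.Num

/-!
# Branches of a regular tree
-/

set_option autoImplicit false

open MeasureTheory

namespace Pool.Agent.Lib.MP_e8140e_co

variable {V : Type*} {G : SimpleGraph V}

/-- The vertex `x` lies in the branch of `c` seen from `v`. -/
def Br (G : SimpleGraph V) (v c x : V) : Prop := ∃ p : G.Walk c x, v ∉ p.support

lemma br_unique (hG : G.IsAcyclic) {v c c' x : V} (h : G.Adj v c) (h' : G.Adj v c')
    (hx : Br G v c x) (hx' : Br G v c' x) : c = c' := by
  classical
  obtain ⟨p, hp⟩ := hx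
  obtain ⟨q, hq⟩ := hx'
  have hP : (SimpleGraph.Walk.cons h p.bypass).IsPath := by
    rw [SimpleGraph.Walk.cons_isPath_iff]
    exact ⟨p.bypass_isPath, fun hv => hp (p.support_bypass_subset_support hv)⟩
  have hQ : (SimpleGraph.Walk.cons h' q.bypass).IsPath := by
    rw [SimpleGraph.Walk.cons_isPath_iff]
    exact ⟨q.bypass_isPath, fun hv => hq (q.support_bypass_subset_support hv)⟩
  have := (hG.subsingleton_path v x).elim ⟨_, hP⟩ ⟨_, hQ⟩
  have h2 := congrArg (fun P : G.Path v x => (P : G.Walk v x).getVert 1) this
  simpa using h2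

lemma br_ne {v c x : V} (h : Br G v c x) : x ≠ v := by
  obtain ⟨p, hp⟩ := h
  rintro rfl
  exact hp p.end_mem_support

lemma br_trans (hG : G.IsAcyclic) {v c c' x : V} (h : G.Adj v c) (h' : G.Adj c c')
    (hne : c' ≠ v) (hx : Br G c c' x) : Br G v c x := by
  classical
  obtain ⟨p, hp⟩ := hx
  refine ⟨SimpleGraph.Walk.cons h' p, ?_⟩
  rw [SimpleGraph.Walk.support_cons, List.mem_cons, not_or]
  refine ⟨h.ne, fun hv => hne ?_⟩
  refine br_unique hG h' h.symm (x := v) ⟨p.takeUntil v hv, fun hc => hp ?_⟩
    ⟨SimpleGraph.Walk.nil, ?_⟩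
  · exact p.support_takeUntil_subset_support hv hc
  · simpa using h.ne'

open Classical in
/-- The five neighbours of `v` other than `p`. -/
noncomputable def child (G : SimpleGraph V) (p v : V) : Fin 5 → V :=
  if h : ∃ f : Fin 5 → V, Function.Injective f ∧ Set.range f = {u | G.Adj v u ∧ u ≠ p} then
    Classical.choose h else fun _ => v

lemma child_spec (hdeg : ∀ v, {u | G.Adj v u}.ncard = 6) {p v : V} (h : G.Adj v p) :
    Function.Injective (child G p v) ∧ Set.range (child G p v) = {u | G.Adj v u ∧ u ≠ p} := by
  have hex : ∃ f : Fin 5 → V, Function.Injective f ∧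
      Set.range f = {u | G.Adj v u ∧ u ≠ p} := by
    have hfin : {u | G.Adj v u}.Finite := Set.finite_of_ncard_pos (by rw [hdeg]; norm_num)
    have e : {u | G.Adj v u ∧ u ≠ p} = {u | G.Adj v u} \ {p} := by
      ext u; simp
    have hc : {u | G.Adj v u ∧ u ≠ p}.ncard = 5 := by
      rw [e, Set.ncard_sdiff_singleton_of_mem (show p ∈ {u | G.Adj v u} from h), hdeg]
    have hf2 : {u | G.Adj v u ∧ u ≠ p}.Finite := hfin.subset (fun u hu => hu.1)
    have : Finite {u | G.Adj v u ∧ u ≠ p} := hf2
    have hc' : Nat.card {u | G.Adj v u ∧ u ≠ p} = 5 := hc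
    let e := Finite.equivFinOfCardEq hc'
    refine ⟨fun k => (e.symm k : V), Subtype.val_injective.comp e.symm.injective, ?_⟩
    ext u
    constructor
    · rintro ⟨k, rfl⟩; exact (e.symm k).2
    · intro hu; exact ⟨e ⟨u, hu⟩, by simp⟩
  unfold child
  rw [dif_pos hex]
  exact Classical.choose_spec hex

lemma child_adj (hdeg : ∀ v, {u | G.Adj v u}.ncard = 6) {p v : V} (h : G.Adj v p) (k : Fin 5) :
    G.Adj v (child G p v k) ∧ child G p v k ≠ p := by
  have : child G p v k ∈ Set.range (child G p v) := ⟨k, rfl⟩
  rw [(child_spec hdeg h).2] at this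
  exact this

lemma exists_child (hdeg : ∀ v, {u | G.Adj v u}.ncard = 6) {p v u : V} (h : G.Adj v p)
    (hu : G.Adj v u) (hne : u ≠ p) : ∃ k, child G p v k = u := by
  have : u ∈ Set.range (child G p v) := by
    rw [(child_spec hdeg h).2]; exact ⟨hu, hne⟩
  exact this

/-- The vertex of the branch of `v` seen from `p` with a given address. -/
noncomputable def addr (G : SimpleGraph V) : V → V → List (Fin 5) → V
  | _, v, [] => v
  | p, v, k :: w => addr G v (child G p v k) w

lemma addr_br (hG : G.IsAcyclic) (hdeg : ∀ v, {u | G.Adj v u}.ncard = 6)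
    (w : List (Fin 5)) : ∀ {p v : V}, G.Adj v p → Br G p v (addr G p v w) := by
  induction w with
  | nil =>
    intro p v h
    refine ⟨(SimpleGraph.Walk.nil : G.Walk v v), fun hm => h.ne' ?_⟩
    simpa using (show p ∈ (SimpleGraph.Walk.nil : G.Walk v v).support from hm)
  | cons k w ih =>
    intro p v h
    obtain ⟨h1, h2⟩ := child_adj hdeg h k
    exact br_trans hG h.symm h1 h2 (ih h1.symm)

lemma addr_injective (hG : G.IsAcyclic) (hdeg : ∀ v, {u | G.Adj v u}.ncard = 6)
    (w : List (Fin 5)) : ∀ {p v : V}, G.Adj v p → ∀ w', addr G p v w = addr G p v w' →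
      w = w' := by
  induction w with
  | nil =>
    intro p v h w' hw
    cases w' with
    | nil => rfl
    | cons k w' =>
      exfalso
      obtain ⟨h1, _⟩ := child_adj hdeg h k
      exact br_ne (addr_br hG hdeg w' h1.symm) hw.symm
  | cons k w ih =>
    intro p v h w' hw
    obtain ⟨h1, _⟩ := child_adj hdeg h k
    cases w' with
    | nil =>
      exfalso
      exact br_ne (addr_br hG hdeg w h1.symm) hw
    | cons k' w' =>
      obtain ⟨h1', _⟩ := child_adj hdeg h k'
      have hkk : child G p v k = child G p v k' := by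
        apply br_unique hG h1 h1' (addr_br hG hdeg w h1.symm)
        have := addr_br hG hdeg w' h1'.symm
        have e : addr G v (child G p v k) w = addr G v (child G p v k') w' := hw
        rw [e]; exact this
      have hk : k = k' := (child_spec hdeg h).1 hkk
      subst hk
      rw [ih h1.symm w' hw]

/-- The labels of the branch of `v` seen from `p`. -/
noncomputable def theta (G : SimpleGraph V) (ω : V → unitInterval) (p v : V) : Theta :=
  fun w => ω (addr G p v w)

lemma theta_root (ω : V → unitInterval) (p v : V) : theta G ω p v [] = ω v := rfl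

lemma sub_theta (ω : V → unitInterval) (p v : V) (k : Fin 5) :
    sub (theta G ω p v) k = theta G ω v (child G p v k) := rfl

/-- The labels of a branch have the law of the labels of the rooted tree. -/
lemma map_theta (hG : G.IsAcyclic) (hdeg : ∀ v, {u | G.Adj v u}.ncard = 6) {p v : V}
    (h : G.Adj v p) : (labelMeasure V).map (fun ω => theta G ω p v) = nu := by
  classical
  unfold nu labelMeasure
  apply Measure.eq_infinitePi
  intro s t ht
  have hmeas : Measurable (fun ω : V → unitInterval => theta G ω p v) := by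
    apply measurable_pi_lambda
    intro w
    exact measurable_pi_apply _
  have hinj : Function.Injective (addr G p v) := fun w w' hw =>
    addr_injective hG hdeg w h w' hw
  rw [Measure.map_apply hmeas (MeasurableSet.pi s.countable_toSet (fun i _ => ht i))]
  have hpre : (fun ω : V → unitInterval => theta G ω p v) ⁻¹' (Set.pi s t) =
      Set.pi (s.image (addr G p v) : Finset V) (fun x => if hx : ∃ w, addr G p v w = x then
        t (Classical.choose hx) else Set.univ) := by
    ext ω
    simp only [Set.mem_preimage, Set.mem_pi, Finset.mem_coe, Finset.mem_image]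
    constructor
    · rintro hω _ ⟨w, hw, rfl⟩
      have hx : ∃ w', addr G p v w' = addr G p v w := ⟨w, rfl⟩
      rw [dif_pos hx]
      have : Classical.choose hx = w := hinj (Classical.choose_spec hx)
      rw [this]
      exact hω w hw
    · intro hω w hw
      have := hω (addr G p v w) ⟨w, hw, rfl⟩
      have hx : ∃ w', addr G p v w' = addr G p v w := ⟨w, rfl⟩
      rw [dif_pos hx] at this
      have e : Classical.choose hx = w := hinj (Classical.choose_spec hx)
      rw [e] at this
      exact this
  rw [hpre, Measure.infinitePi_pi]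
  · rw [Finset.prod_image (fun _ _ _ _ hw => hinj hw)]
    apply Finset.prod_congr rfl
    intro w _
    have hx : ∃ w', addr G p v w' = addr G p v w := ⟨w, rfl⟩
    rw [dif_pos hx]
    have e : Classical.choose hx = w := hinj (Classical.choose_spec hx)
    rw [e]
  · intro x _
    split_ifs
    · exact ht _
    · exact MeasurableSet.univ

/-! ### Comparison of the processes -/

variable {K : ℕ} {ω : V → unitInterval}

lemma inS_iff_sIn (hdeg : ∀ v, {u | G.Adj v u}.ncard = 6) (j : ℕ) : ∀ {p v : V},
    G.Adj v p → j ≤ lev K (ω p) → (inS G K ω j v ↔ sIn K j (theta G ω p v)) := by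
  induction j with
  | zero => intro p v _ _; exact Iff.rfl
  | succ j ih =>
    intro p v h hj
    simp only [inS, sIn, theta_root]
    refine or_congr (ih h (by omega)) (and_congr_right fun hv => ?_)
    constructor
    · intro hall k
      obtain ⟨h1, _⟩ := child_adj hdeg h k
      have := hall _ h1
      rw [sub_theta, theta_root, ← ih h1.symm hv.ge]
      exact this
    · intro hall u hu
      by_cases hup : u = p
      · subst hup
        refine ⟨by omega, fun hin => ?_⟩
        have := (inS_lev hin).1
        omega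
      · obtain ⟨k, rfl⟩ := exists_child hdeg h hu hup
        have := hall k
        rw [sub_theta, theta_root, ← ih hu.symm hv.ge] at this
        exact this

lemma inS_of_sIn (hdeg : ∀ v, {u | G.Adj v u}.ncard = 6) {j : ℕ} (hj : j ≤ K - 1) {p v : V}
    (h : G.Adj v p) (hp : ¬ inS G K ω (K - 1) p) (hs : sIn K j (theta G ω p v))
    (hne : lev K (ω v) ≠ lev K (ω p)) : inS G K ω j v := by
  obtain ⟨h1, h2⟩ := sIn_lev hs
  rw [theta_root] at h1 h2
  apply inS_of_lev h1
  intro u hu
  by_cases hup : u = p
  · subst hup
    exact ⟨hne.symm, fun hin => hp (inS_mono (by omega) hin)⟩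
  · obtain ⟨k, rfl⟩ := exists_child hdeg h hu hup
    have := h2 k
    rw [sub_theta, theta_root, ← inS_iff_sIn hdeg _ hu.symm le_rfl] at this
    exact this

lemma done_of_dn (hdeg : ∀ v, {u | G.Adj v u}.ncard = 6) (l : ℕ) : ∀ {p v : V},
    G.Adj v p → ¬ done G K ω l p → dn K l (lev K (ω p)) (theta G ω p v) →
      done G K ω l v := by
  have hbase : ∀ {l : ℕ} {p v : V}, G.Adj v p → ¬ done G K ω l p →
      sIn K (K - 1) (theta G ω p v) ∧ lev K (theta G ω p v []) ≠ lev K (ω p) →
      done G K ω l v := by
    intro l p v h hp hs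
    have hp0 : ¬ done G K ω 0 p := fun h0 => hp (done_mono (Nat.zero_le _) h0)
    exact done_mono (Nat.zero_le _) (inS_of_sIn hdeg le_rfl h hp0 hs.1 hs.2)
  induction l with
  | zero => intro p v h hp hd; exact hbase h hp hd
  | succ l ih =>
    intro p v h hp hd
    rcases hd with hd | hd
    · exact hbase h hp hd
    · by_contra hv
      have hv' : ¬ done G K ω l v := fun h' => hv (done_mono_succ h')
      apply hv
      right
      refine hd.trans ?_
      have hfin : {u | G.Adj v u ∧ done G K ω l u}.Finite :=
        (Set.finite_of_ncard_pos (by rw [hdeg]; norm_num) :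
          {u | G.Adj v u}.Finite).subset (fun u hu => hu.1)
      rw [← Set.ncard_image_of_injective _ (child_spec hdeg h).1]
      apply Set.ncard_le_ncard _ hfin
      rintro _ ⟨k, hk, rfl⟩
      obtain ⟨h1, _⟩ := child_adj hdeg h k
      exact ⟨h1, ih h1.symm hv' hk⟩

/-- A vertex that is not done is underdone in the branch seen from any neighbour. -/
lemma und_of_not_done (hdeg : ∀ v, {u | G.Adj v u}.ncard = 6) {l : ℕ} {p v : V}
    (h : G.Adj v p) (hv : ¬ done G K ω (l + 1) v) : und K l (theta G ω p v) := by
  have hv' : ¬ done G K ω l v := fun h' => hv (done_mono_succ h')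
  by_contra hu
  apply hv
  right
  unfold und at hu
  have h3 : 3 ≤ {k | dn K l (lev K (theta G ω p v [])) (sub (theta G ω p v) k)}.ncard := by
    omega
  refine h3.trans ?_
  have hfin : {u | G.Adj v u ∧ done G K ω l u}.Finite :=
    (Set.finite_of_ncard_pos (by rw [hdeg]; norm_num) :
      {u | G.Adj v u}.Finite).subset (fun u hu => hu.1)
  rw [← Set.ncard_image_of_injective _ (child_spec hdeg h).1]
  apply Set.ncard_le_ncard _ hfin
  rintro _ ⟨k, hk, rfl⟩
  obtain ⟨h1, _⟩ := child_adj hdeg h k
  exact ⟨h1, done_of_dn hdeg l h1.symm hv' hk⟩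

/-- The probability not to be done decays doubly exponentially. -/
lemma not_done_le (hG : G.IsAcyclic) (hdeg : ∀ v, {u | G.Adj v u}.ncard = 6) (l : ℕ) (v : V) :
    labelMeasure V {ω | ¬ done G 64 ω (6 + l) v} ≤ ENNReal.ofReal ((1 / 60) ^ (2 ^ l)) := by
  have hne : {u | G.Adj v u}.Nonempty := by
    apply Set.nonempty_of_ncard_ne_zero; rw [hdeg]; norm_num
  obtain ⟨p, hp⟩ := hne
  have hmeas : Measurable (fun ω : V → unitInterval => theta G ω p v) := by
    apply measurable_pi_lambda
    intro w
    exact measurable_pi_apply _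
  have hsub : {ω | ¬ done G 64 ω (6 + l) v} ⊆
      (fun ω : V → unitInterval => theta G ω p v) ⁻¹' {θ | und 64 (5 + l) θ} := by
    intro ω hω
    have e : 6 + l = 5 + l + 1 := by omega
    rw [Set.mem_ofPred_eq, e] at hω
    exact und_of_not_done hdeg hp hω
  refine (measure_mono hsub).trans ?_
  rw [← Measure.map_apply hmeas (measurableSet_und (5 + l)), map_theta hG hdeg hp,
    ENNReal.le_ofReal_iff_toReal_le (measure_ne_top _ _) (by positivity)]
  exact und_final l

end Pool.Agent.Lib.MP_e8140e_co
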